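import Pool.Agent.Run7.h483.P15.C2
import Pool.Agent.Run7.h843.P21.Defs

/-!
# P21 (helper483): C2A and C2B, evaluation of the divisor sums
-/

set_option autoImplicit false

namespace Pool.Agent.Run7.h483.P21

open Finset
open Pool.Agent.Z700 (hh fac)
open Pool.Agent.N969.P15 (psp tw ep2)
open Pool.Agent.Run7.h843.P21 (WW loc7 lrest Cls0 S_C2A S_C2B I7)
open Pool.Agent.Run7.h483.P15 (F fl fl_zero F_prod cq Ph dsum jac_neg jac2 sumk hh_four fact_four
  fl_dvd sum_alt fact2_four)

/-! ### symbols -/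

theorem jac7 {n : ℕ} (hn : n % 4 = 3) (h7 : I7 n) : jacobiSym ((7 : ℕ) : ℤ) n = 1 := by
  rw [← jac_neg hn (by norm_num : 7 % 2 = 1)]
  rcases h7 with h | h | h
  · rw [jacobiSym.mod_left' (a₂ := 4) (b := 7) (by push_cast; omega)]
    norm_num
  · rw [jacobiSym.mod_left' (a₂ := 2) (b := 7) (by push_cast; omega)]
    norm_num
  · rw [jacobiSym.mod_left' (a₂ := 1) (b := 7) (by push_cast; omega)]
    exact jacobiSym.one_left 7

theorem jac3 {n : ℕ} (hn : n % 4 = 3) (h3 : n % 3 = 1) : jacobiSym ((3 : ℕ) : ℤ) n = -1 := by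
  rw [← jac_neg hn (by norm_num : 3 % 2 = 1),
    jacobiSym.mod_left' (a₂ := 2) (b := 3) (by push_cast; omega)]
  norm_num

/-! ### the divisor sum as a double sum -/

theorem WW_eq {n S T : ℕ} (hn3 : ¬ 7 ∣ n) (hT : 0 < T) :
    WW n (7 * S) (3 * T) =
      ∑ a ∈ S.divisors, ∑ X ∈ T.divisors, ∏ p ∈ n.primeFactors, Ph 7 3 S T p a X := by
  unfold WW
  rw [sumk (by norm_num)]
  refine sum_congr rfl fun a _ => ?_
  rw [sumk (by norm_num), ← Nat.sum_div_divisors T]
  refine sum_congr rfl fun b hb => ?_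
  have hb' := Nat.mem_divisors.1 hb
  refine prod_congr rfl fun p hp => ?_
  have hpp := Nat.prime_of_mem_primeFactors hp
  have hp3 : p ∣ 7 * a ↔ p ∣ a := by
    rw [hpp.dvd_mul]
    refine or_iff_right fun h => ?_
    rw [Nat.prime_dvd_prime_iff_eq hpp (by norm_num : Nat.Prime 7)] at h
    exact hn3 (h ▸ Nat.dvd_of_mem_primeFactors hp)
  have e1 : 3 * T / (3 * (T / b)) = T / (T / b) := Nat.mul_div_mul_left _ _ (by norm_num)
  have e2 : 7 * S / (7 * a) = S / a := Nat.mul_div_mul_left _ _ (by norm_num)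
  have e3 : T / (T / b) = b := Nat.div_div_self hb'.1 hT.ne'
  unfold psp Ph
  rw [e1, e2, e3]
  by_cases h : p ∣ a ∧ p ∣ b
  · rw [if_pos h, if_pos ⟨hp3.2 h.1, h.2⟩]
  · rw [if_neg h, if_neg (fun h' => h ⟨hp3.1 h'.1, h'.2⟩)]

/-! ### the local factors -/

/-- the primes different from `2`, `7`, `3` -/
def core (D : ℕ) : Finset ℕ := ((D.primeFactors.erase 2).erase 7).erase 3

theorem mem_core {D l : ℕ} : l ∈ core D ↔ l ≠ 3 ∧ l ≠ 7 ∧ l ≠ 2 ∧ l ∈ D.primeFactors := by
  unfold core
  rw [mem_erase, mem_erase, mem_erase]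

theorem core_four {n m : ℕ} (hm : m ≠ 0) :
    ∏ l ∈ core (4 * m), fac n (4 * m) l = ∏ l ∈ core m, fac n m l := by
  have hc : core (4 * m) = core m := by
    ext l
    rw [mem_core, mem_core]
    refine and_congr_right fun _ => and_congr_right fun _ => and_congr_right fun h2 => ?_
    rw [Nat.mem_primeFactors, Nat.mem_primeFactors]
    constructor
    · rintro ⟨h3, h4, -⟩
      refine ⟨h3, ?_, hm⟩
      rcases (h3.dvd_mul).1 h4 with h5 | h5
      · exfalso
        have h1 : l ∣ 2 ^ 2 := by simpa using h5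
        exact h2 ((Nat.prime_dvd_prime_iff_eq h3 Nat.prime_two).1 (h3.dvd_of_dvd_pow h1))
      · exact h5
    · rintro ⟨h3, h4, -⟩
      exact ⟨h3, Dvd.dvd.mul_left h4 _, by omega⟩
  rw [hc]
  refine prod_congr rfl fun l hl => ?_
  obtain ⟨_, _, h2, hl'⟩ := mem_core.1 hl
  have hlp := Nat.prime_of_mem_primeFactors hl'
  unfold fac
  rw [hh_four hlp h2 hm, fact_four hlp h2 hm]

/-- the factor of a common prime -/
theorem cq_eq {n S T q : ℕ} (hsq : Squarefree n) (hn : n % 4 = 3) (hS : S ≠ 0) (hT : T ≠ 0)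
    (hq : q ∈ n.primeFactors) (hq3 : q ≠ 7) (hq5 : q ≠ 3) :
    cq n 7 3 S T q = hh n (7 * S * (3 * T)) q := by
  have hqp := Nat.prime_of_mem_primeFactors hq
  have hqn := Nat.dvd_of_mem_primeFactors hq
  obtain ⟨r, hr⟩ := hqn
  have hnq : n / q = r := Nat.div_eq_of_eq_mul_right hqp.pos hr
  have h3 : ¬ q ∣ 7 := fun h => hq3 ((Nat.prime_dvd_prime_iff_eq hqp (by norm_num : Nat.Prime 7)).1 h)
  have h5 : ¬ q ∣ 3 := fun h => hq5 ((Nat.prime_dvd_prime_iff_eq hqp (by norm_num)).1 h)
  have hf : (7 * S * (3 * T)).factorization q = S.factorization q + T.factorization q := by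
    rw [Nat.factorization_mul (by omega) (by omega), Nat.factorization_mul (by norm_num) hS,
      Nat.factorization_mul (by norm_num) hT, Finsupp.add_apply, Finsupp.add_apply,
      Finsupp.add_apply, Nat.factorization_eq_zero_of_not_dvd h3,
      Nat.factorization_eq_zero_of_not_dvd h5, zero_add, zero_add]
  have hqr : q.Coprime r := by
    have h1 : Squarefree (q * r) := hr ▸ hsq
    exact Nat.coprime_of_squarefree_mul h1
  have hJ : jacobiSym (q : ℤ) r = 1 ∨ jacobiSym (q : ℤ) r = -1 :=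
    jacobiSym.eq_one_or_neg_one (by rw [Int.gcd_natCast_natCast]; exact hqr)
  have hodd : q % 2 = 1 ∧ r % 2 = 1 := by
    have h1 : (q * r) % 2 = 1 := by rw [← hr]; omega
    rcases Nat.mod_two_eq_zero_or_one q with h | h <;> rcases Nat.mod_two_eq_zero_or_one r with h' | h' <;>
      simp [Nat.mul_mod, h, h'] at h1 ⊢
  have hrec : jacobiSym (q : ℤ) r = jacobiSym (r : ℤ) q := by
    have h1 : (q * r) % 4 = 3 := by rw [← hr]; exact hn
    have h4 : q % 4 = 1 ∨ q % 4 = 3 := by omega
    have h4' : r % 4 = 1 ∨ r % 4 = 3 := by omega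
    rcases h4 with h | h
    · exact jacobiSym.quadratic_reciprocity_one_mod_four h (Nat.odd_iff.2 hodd.2)
    · rcases h4' with h' | h'
      · exact (jacobiSym.quadratic_reciprocity_one_mod_four h' (Nat.odd_iff.2 hodd.1)).symm
      · exfalso
        rw [Nat.mul_mod, h, h'] at h1
        omega
  have hm : 7 * 3 * S * T = 7 * S * (3 * T) := by ring
  unfold cq hh
  rw [hf, hnq, hm]
  set e := S.factorization q + T.factorization q with he
  have hpow : jacobiSym ((q ^ e : ℕ) : ℤ) r = (jacobiSym (q : ℤ) r) ^ e := by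
    rw [Nat.cast_pow, jacobiSym.pow_left]
  rw [hpow]
  split_ifs with h
  · have h1 : (jacobiSym (q : ℤ) r) ^ e = 1 := by
      rcases hJ with h1 | h1
      · rw [h1, one_pow]
      · rw [h1, h.neg_one_pow]
    rw [h1, mul_one]
  · have ho : Odd e := Nat.not_even_iff_odd.1 h
    have h1 : (jacobiSym (q : ℤ) r) ^ e = jacobiSym (r : ℤ) q := by
      rw [← hrec]
      rcases hJ with h1 | h1
      · rw [h1, one_pow]
      · rw [h1, ho.neg_one_pow]
    rw [h1]
    have h2 : (-((r * (7 * S * (3 * T) / q ^ e) : ℕ) : ℤ)) =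
        (r : ℤ) * (-((7 * S * (3 * T) / q ^ e : ℕ) : ℤ)) := by push_cast; ring
    rw [h2, jacobiSym.mul_left]
    ring

/-- **evaluation of the divisor sum** -/
theorem WW_eval {n S T : ℕ} (hsq : Squarefree n) (hn : n % 4 = 3) (h3 : I7 n)
    (h5 : n % 3 = 1) (hS : 0 < S) (hT : 0 < T)
    (hJ : ∀ p ∈ n.primeFactors, (p ∣ 7 * S ↔ p ∣ 3 * T))
    (hl : ∀ l : ℕ, l.Prime → l ≠ 2 → ¬ l ∣ n → l ∣ 7 * S → ¬ l ∣ 3 * T) :
    WW n (7 * S) (3 * T) = -(fl n 2 (S.factorization 2) * fl n 2 (T.factorization 2) *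
      (((7 * S).factorization 7 : ℤ) * ((if Odd ((3 * T).factorization 3) then 1 else 0) *
        ∏ l ∈ core (7 * S * (3 * T)), fac n (7 * S * (3 * T)) l))) := by
  have hn0 : n ≠ 0 := hsq.ne_zero
  have hn3 : ¬ 7 ∣ n := by
    unfold I7 at h3
    omega
  have hn5 : ¬ 3 ∣ n := by omega
  have p5 : Nat.Prime 3 := Nat.prime_three
  have hT3 : ¬ 7 ∣ 3 * T := hl 7 (by norm_num : Nat.Prime 7) (by norm_num) hn3 (dvd_mul_right _ _)
  have hS5 : ¬ 3 ∣ 7 * S := fun h => hl 3 p5 (by norm_num) hn5 h (dvd_mul_right _ _)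
  have hJ' : ∀ p ∈ n.primeFactors, (p ∣ S ↔ p ∣ T) := by
    intro p hp
    have hpp := Nat.prime_of_mem_primeFactors hp
    have hpn := Nat.dvd_of_mem_primeFactors hp
    have e3 : p ∣ 7 * S ↔ p ∣ S := by
      rw [hpp.dvd_mul]
      refine or_iff_right fun h => hn3 ?_
      rw [Nat.prime_dvd_prime_iff_eq hpp (by norm_num : Nat.Prime 7)] at h
      exact h ▸ hpn
    have e5 : p ∣ 3 * T ↔ p ∣ T := by
      rw [hpp.dvd_mul]
      refine or_iff_right fun h => hn5 ?_
      rw [Nat.prime_dvd_prime_iff_eq hpp p5] at h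
      exact h ▸ hpn
    rw [← e3, ← e5]
    exact hJ p hp
  have hk : Nat.Coprime 7 n := (Nat.Prime.coprime_iff_not_dvd (by norm_num : Nat.Prime 7)).2 hn3
  have hl5 : Nat.Coprime 3 n := (Nat.Prime.coprime_iff_not_dvd p5).2 hn5
  rw [WW_eq hn3 hT, dsum hsq hk hl5 hS hT hJ']
  have hneg : jacobiSym (-((7 : ℕ) : ℤ)) n = -1 := by
    rw [jacobiSym.neg _ (Nat.odd_iff.2 (by omega)), jac7 hn h3, ZMod.χ₄_nat_three_mod_four hn]
    norm_num
  rw [hneg]
  set m := 7 * S * (3 * T) with hm
  have hm0 : m ≠ 0 := by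
    rw [hm]
    have : 0 < 7 * S * (3 * T) := by positivity
    omega
  set P := insert 3 (insert 7 (insert 2 (core m))) with hP
  have hcp : ∀ l ∈ core m, l.Prime := fun l hl =>
    Nat.prime_of_mem_primeFactors (mem_core.1 hl).2.2.2
  have hPp : ∀ p ∈ P, p.Prime := by
    intro p hp
    rw [hP, mem_insert, mem_insert, mem_insert] at hp
    rcases hp with rfl | rfl | rfl | h
    · exact p5
    · exact (by norm_num : Nat.Prime 7)
    · exact Nat.prime_two
    · exact hcp p h
  have hPm : ∀ l : ℕ, l.Prime → l ∣ m → l ∈ P := by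
    intro l hlp hlm
    rw [hP, mem_insert, mem_insert, mem_insert, mem_core]
    by_cases h5 : l = 3
    · exact Or.inl h5
    by_cases h3 : l = 7
    · exact Or.inr (Or.inl h3)
    by_cases h2 : l = 2
    · exact Or.inr (Or.inr (Or.inl h2))
    · exact Or.inr (Or.inr (Or.inr ⟨h5, h3, h2, Nat.mem_primeFactors.2 ⟨hlp, hlm, hm0⟩⟩))
  have hSm : S ∣ m := ⟨7 * (3 * T), by rw [hm]; ring⟩
  have hTm : T ∣ m := ⟨7 * S * 3, by rw [hm]; ring⟩
  rw [F_prod n hS.ne' P hPp fun p hp => hPm p (Nat.prime_of_mem_primeFactors hp)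
      ((Nat.dvd_of_mem_primeFactors hp).trans hSm),
    F_prod n hT.ne' P hPp fun p hp => hPm p (Nat.prime_of_mem_primeFactors hp)
      ((Nat.dvd_of_mem_primeFactors hp).trans hTm)]
  have n2 : (2 : ℕ) ∉ core m := fun h => (mem_core.1 h).2.2.1 rfl
  have n3 : (7 : ℕ) ∉ insert 2 (core m) := by
    rw [mem_insert]
    rintro (h | h)
    · omega
    · exact (mem_core.1 h).2.1 rfl
  have n5 : (3 : ℕ) ∉ insert 7 (insert 2 (core m)) := by
    rw [mem_insert, mem_insert]
    rintro (h | h | h)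
    · omega
    · omega
    · exact (mem_core.1 h).1 rfl
  -- the factors at 7 and 3
  have v3T : T.factorization 7 = 0 :=
    Nat.factorization_eq_zero_of_not_dvd fun h => hT3 (Dvd.dvd.mul_left h _)
  have v5S : S.factorization 3 = 0 :=
    Nat.factorization_eq_zero_of_not_dvd fun h => hS5 (Dvd.dvd.mul_left h _)
  have v3S : (7 * S).factorization 7 = S.factorization 7 + 1 := by
    rw [Nat.factorization_mul (by norm_num) hS.ne', Finsupp.add_apply,
      (by norm_num : Nat.Prime 7).factorization_self, add_comm]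
  have v5T : (3 * T).factorization 3 = T.factorization 3 + 1 := by
    rw [Nat.factorization_mul (by norm_num) hT.ne', Finsupp.add_apply,
      p5.factorization_self, add_comm]
  have f3 : fl n 7 (S.factorization 7) = ((7 * S).factorization 7 : ℤ) := by
    unfold fl
    rw [jac7 hn h3, v3S]
    simp
  have f5 : fl n 3 (T.factorization 3) = if Odd ((3 * T).factorization 3) then 1 else 0 := by
    unfold fl
    rw [jac3 hn h5, v5T, sum_alt]
  -- the other factors
  have hcore : (∏ l ∈ core m, fl n l (S.factorization l)) * (∏ l ∈ core m, fl n l (T.factorization l)) *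
      ∏ q ∈ n.primeFactors.filter (· ∣ S), (1 + cq n 7 3 S T q) = ∏ l ∈ core m, fac n m l := by
    have h1 : n.primeFactors.filter (· ∣ S) = (core m).filter (· ∣ n) := by
      ext l
      rw [mem_filter, mem_filter, mem_core, Nat.mem_primeFactors, Nat.mem_primeFactors]
      constructor
      · rintro ⟨⟨h1, h2, -⟩, h4⟩
        refine ⟨⟨?_, ?_, ?_, h1, h4.trans hSm, hm0⟩, h2⟩
        · rintro rfl; exact hn5 h2
        · rintro rfl; exact hn3 h2
        · rintro rfl; omega
      · rintro ⟨⟨g5, g3, g2, h1, h2, -⟩, h4⟩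
        refine ⟨⟨h1, h4, hn0⟩, ?_⟩
        have hmem : l ∈ n.primeFactors := Nat.mem_primeFactors.2 ⟨h1, h4, hn0⟩
        rcases (h1.dvd_mul).1 h2 with h | h
        · rcases (h1.dvd_mul).1 h with h' | h'
          · exact absurd ((Nat.prime_dvd_prime_iff_eq h1 (by norm_num : Nat.Prime 7)).1 h') g3
          · exact h'
        · rcases (h1.dvd_mul).1 h with h' | h'
          · exact absurd ((Nat.prime_dvd_prime_iff_eq h1 p5).1 h') g5
          · exact (hJ' l hmem).2 h'
    rw [h1, prod_filter, ← prod_mul_distrib, ← prod_mul_distrib]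
    refine prod_congr rfl fun l hlc => ?_
    obtain ⟨g5, g3, g2, hlm⟩ := mem_core.1 hlc
    have hlp := Nat.prime_of_mem_primeFactors hlm
    unfold fac
    by_cases hln : l ∣ n
    · rw [if_pos hln, if_pos hln, fl_dvd hlp hln hn0, fl_dvd hlp hln hn0,
        cq_eq hsq hn hS.ne' hT.ne' (Nat.mem_primeFactors.2 ⟨hlp, hln, hn0⟩) g3 g5]
      ring
    · rw [if_neg hln, if_neg hln, mul_one]
      have nl3 : ¬ l ∣ 7 := fun h => g3 ((Nat.prime_dvd_prime_iff_eq hlp (by norm_num : Nat.Prime 7)).1 h)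
      have nl5 : ¬ l ∣ 3 := fun h => g5 ((Nat.prime_dvd_prime_iff_eq hlp p5).1 h)
      have hf : m.factorization l = S.factorization l + T.factorization l := by
        rw [hm, Nat.factorization_mul (by omega) (by omega),
          Nat.factorization_mul (by norm_num) hS.ne',
          Nat.factorization_mul (by norm_num) hT.ne', Finsupp.add_apply, Finsupp.add_apply,
          Finsupp.add_apply, Nat.factorization_eq_zero_of_not_dvd nl3,
          Nat.factorization_eq_zero_of_not_dvd nl5, zero_add, zero_add]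
      have hodd : l % 2 = 1 := by
        have := hlp.eq_two_or_odd
        tauto
      rw [jac_neg hn hodd]
      have hfl : ∀ v, fl n l v = ∑ j ∈ range (v + 1), jacobiSym (l : ℤ) n ^ j := fun _ => rfl
      rw [← hfl, hf]
      by_cases hlS : l ∣ 7 * S
      · have hlT := hl l hlp g2 hln hlS
        have h0 : T.factorization l = 0 :=
          Nat.factorization_eq_zero_of_not_dvd fun h => hlT (Dvd.dvd.mul_left h _)
        rw [h0, fl_zero, mul_one, add_zero]
      · have h0 : S.factorization l = 0 :=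
          Nat.factorization_eq_zero_of_not_dvd fun h => hlS (Dvd.dvd.mul_left h _)
        rw [h0, fl_zero, one_mul, zero_add]
  rw [hP, prod_insert n5, prod_insert n3, prod_insert n2, prod_insert n5, prod_insert n3,
    prod_insert n2, v3T, v5S, fl_zero, fl_zero, f3, f5, ← hcore]
  ring

/-! ### C2A, C2B -/

theorem lrest_four {n m : ℕ} (hm : m ≠ 0) :
    lrest n (4 * m) = (if Odd (m.factorization 3) then 1 else 0) *
      (tw n (4 * m) * ∏ l ∈ core m, fac n m l) := by
  have p5 : Nat.Prime 3 := Nat.prime_three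
  unfold lrest
  rw [fact_four p5 (by norm_num) hm]
  split_ifs with h
  · rw [one_mul, ← core_four hm]
    rfl
  · rw [zero_mul]

theorem lrest_one {n m : ℕ} :
    lrest n m = (if Odd (m.factorization 3) then 1 else 0) *
      (tw n m * ∏ l ∈ core m, fac n m l) := by
  unfold lrest
  split_ifs with h
  · rw [one_mul]
    rfl
  · rw [zero_mul]

theorem tw_eq {n m : ℕ} (hn : n % 4 = 3) : tw n m = ∑ j ∈ range (m.factorization 2 - 1),
    (jacobiSym ((2 : ℕ) : ℤ) n) ^ j := by
  unfold tw
  rw [jac2 hn]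

/-- the common part of C2A and C2B -/
theorem prep {n N S T : ℕ} (hc : Cls0 n) (hN : N = n ∨ N = 2 * n) (hS : 0 < S) (hT : 0 < T)
    (hST : 7 * S + 3 * T = N) :
    WW n (7 * S) (3 * T) = -(fl n 2 (S.factorization 2) * fl n 2 (T.factorization 2) *
      (((7 * S).factorization 7 : ℤ) * ((if Odd ((3 * T).factorization 3) then 1 else 0) *
        ∏ l ∈ core (7 * S * (3 * T)), fac n (7 * S * (3 * T)) l))) ∧
    (7 * S * (3 * T)).factorization 7 = (7 * S).factorization 7 ∧
    (7 * S * (3 * T)).factorization 3 = (3 * T).factorization 3 ∧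
    (7 * S * (3 * T)).factorization 2 = S.factorization 2 + T.factorization 2 := by
  obtain ⟨hsq, h60⟩ := hc
  have hn4 : n % 4 = 3 := by omega
  have hn3 : n % 7 = 3 ∨ n % 7 = 5 ∨ n % 7 = 6 := by omega
  have hn5 : n % 3 = 1 := by omega
  have p5 : Nat.Prime 3 := Nat.prime_three
  have key : ∀ l : ℕ, l.Prime → l ≠ 2 → (l ∣ N ↔ l ∣ n) := by
    intro l hl h2
    rcases hN with h | h
    · rw [h]
    · rw [h, hl.dvd_mul]
      exact or_iff_right fun h' => h2 ((Nat.prime_dvd_prime_iff_eq hl Nat.prime_two).1 h')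
  have hJ : ∀ p ∈ n.primeFactors, (p ∣ 7 * S ↔ p ∣ 3 * T) := by
    intro p hp
    have hpn := Nat.dvd_of_mem_primeFactors hp
    have hpN : p ∣ 7 * S + 3 * T := by
      rw [hST]
      rcases hN with h | h
      · rw [h]; exact hpn
      · rw [h]; exact Dvd.dvd.mul_left hpn 2
    exact ⟨fun h => (Nat.dvd_add_right h).1 hpN, fun h => (Nat.dvd_add_left h).1 hpN⟩
  have hl : ∀ l : ℕ, l.Prime → l ≠ 2 → ¬ l ∣ n → l ∣ 7 * S → ¬ l ∣ 3 * T := by
    intro l hlp h2 hln h3 h5
    apply hln
    rw [← key l hlp h2, ← hST]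
    exact dvd_add h3 h5
  have h3T : ¬ 7 ∣ 3 * T := hl 7 (by norm_num : Nat.Prime 7) (by norm_num) (by omega) (dvd_mul_right _ _)
  have h5S : ¬ 3 ∣ 7 * S := fun h => hl 3 p5 (by norm_num) (by omega) h (dvd_mul_right _ _)
  refine ⟨WW_eval hsq hn4 hn3 hn5 hS hT hJ hl, ?_, ?_, ?_⟩
  · rw [Nat.factorization_mul (by omega) (by omega), Finsupp.add_apply,
      Nat.factorization_eq_zero_of_not_dvd h3T, add_zero]
  · rw [Nat.factorization_mul (by omega) (by omega), Finsupp.add_apply,
      Nat.factorization_eq_zero_of_not_dvd h5S, zero_add]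
  · rw [Nat.factorization_mul (by omega) (by omega), Nat.factorization_mul (by norm_num) hS.ne',
      Nat.factorization_mul (by norm_num) hT.ne', Finsupp.add_apply, Finsupp.add_apply,
      Finsupp.add_apply, Nat.factorization_eq_zero_of_not_dvd (by norm_num : ¬ 2 ∣ 7),
      Nat.factorization_eq_zero_of_not_dvd (by norm_num : ¬ 2 ∣ 3), zero_add, zero_add]

theorem fact7_four {m : ℕ} (hm : m ≠ 0) : (4 * m).factorization 7 = m.factorization 7 :=
  fact_four (by norm_num : Nat.Prime 7) (by norm_num) hm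

theorem t_C2A : S_C2A := by
  intro n hc T hT hTn h5 h3
  obtain ⟨T1, rfl⟩ := h5
  obtain ⟨S1, hS1⟩ := h3
  have hS0 : 0 < S1 := by omega
  have hT0 : 0 < T1 := by omega
  rw [hS1]
  obtain ⟨e1, e2, e3, e4⟩ := prep hc (Or.inl rfl) hS0 hT0 (by omega)
  have hn4 : n % 4 = 3 := by
    have := hc.2
    omega
  have hm0 : 7 * S1 * (3 * T1) ≠ 0 := by
    have : 0 < 7 * S1 * (3 * T1) := by positivity
    omega
  have e5 : 4 * (7 * S1) * (3 * T1) = 4 * (7 * S1 * (3 * T1)) := by ring
  rw [e1, e5]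
  unfold loc7
  rw [lrest_four hm0, fact7_four hm0, e2, e3, tw_eq hn4, fact2_four hm0, e4]
  have e6 : fl n 2 (S1.factorization 2) * fl n 2 (T1.factorization 2) =
      ∑ j ∈ range (S1.factorization 2 + T1.factorization 2 + 2 - 1),
        (jacobiSym ((2 : ℕ) : ℤ) n) ^ j := by
    have h1 : S1.factorization 2 = 0 ∨ T1.factorization 2 = 0 := by
      by_cases h : 2 ∣ S1
      · right
        apply Nat.factorization_eq_zero_of_not_dvd
        omega
      · left
        exact Nat.factorization_eq_zero_of_not_dvd h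
    rcases h1 with h | h
    · rw [h, fl_zero, one_mul]
      unfold fl
      congr 2
      omega
    · rw [h, fl_zero, mul_one]
      unfold fl
      congr 2
  rw [e6]
  ring

theorem t_C2B : S_C2B := by
  intro n hc T hT hTn h5 h3
  obtain ⟨T1, rfl⟩ := h5
  obtain ⟨S1, hS1⟩ := h3
  have hS0 : 0 < S1 := by omega
  have hT0 : 0 < T1 := by omega
  rw [hS1]
  obtain ⟨e1, e2, e3, e4⟩ := prep hc (Or.inr rfl) hS0 hT0 (by omega)
  have hn4 : n % 4 = 3 := by
    have := hc.2
    omega
  have hm0 : 7 * S1 * (3 * T1) ≠ 0 := by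
    have : 0 < 7 * S1 * (3 * T1) := by positivity
    omega
  have e5 : 4 * (7 * S1) * (3 * T1) = 4 * (7 * S1 * (3 * T1)) := by ring
  have hep : ep2 n = jacobiSym ((2 : ℕ) : ℤ) n := by
    unfold ep2
    rw [jac2 hn4]
  rw [e1, e5, hep]
  unfold loc7
  rw [lrest_four hm0, fact7_four hm0, lrest_one, e2, e3, tw_eq hn4, tw_eq hn4, fact2_four hm0, e4]
  by_cases h2 : 2 ∣ 3 * T1
  · rw [if_pos h2]
    have h2T : 2 ∣ T1 := by omega
    have h2S : 2 ∣ S1 := by omega
    have e6 : fl n 2 (S1.factorization 2) * fl n 2 (T1.factorization 2) =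
        (∑ j ∈ range (S1.factorization 2 + T1.factorization 2 + 2 - 1),
          (jacobiSym ((2 : ℕ) : ℤ) n) ^ j) + jacobiSym ((2 : ℕ) : ℤ) n *
        ∑ j ∈ range (S1.factorization 2 + T1.factorization 2 - 1),
          (jacobiSym ((2 : ℕ) : ℤ) n) ^ j := by
      have hone : ∀ m : ℕ, m ≠ 0 → 2 ∣ m → ¬ 4 ∣ m → m.factorization 2 = 1 := by
        intro m hm h h4
        have h1 := Nat.prime_two.factorization_pos_of_dvd hm h
        by_contra hne
        have h2 : 2 ≤ m.factorization 2 := by omega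
        apply h4
        have h3 := (Nat.pow_dvd_pow 2 h2).trans (Nat.ordProj_dvd m 2)
        simpa using h3
      have hpoly : ∀ (x : ℤ) (w : ℕ), (∑ j ∈ range (1 + 1), x ^ j) * ∑ j ∈ range (w + 1), x ^ j =
          (∑ j ∈ range (w + 2), x ^ j) + x * ∑ j ∈ range w, x ^ j := by
        intro x w
        have h1 : ∑ j ∈ range (w + 2), x ^ j = 1 + x * ∑ j ∈ range (w + 1), x ^ j := by
          rw [sum_range_succ' _ (w + 1), mul_sum, add_comm, pow_zero]
          congr 1
          exact sum_congr rfl fun j _ => pow_succ' x j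
        have h2 : ∑ j ∈ range (w + 1), x ^ j = 1 + x * ∑ j ∈ range w, x ^ j := by
          rw [sum_range_succ' _ w, mul_sum, add_comm, pow_zero]
          congr 1
          exact sum_congr rfl fun j _ => pow_succ' x j
        have h3 : ∑ j ∈ range (1 + 1), x ^ j = 1 + x := by
          rw [sum_range_succ, sum_range_succ, sum_range_zero]
          ring
        rw [h1, h3]
        linear_combination h2
      by_cases h4 : 4 ∣ S1
      · have hw := hone T1 hT0.ne' h2T (by omega)
        rw [hw, mul_comm]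
        unfold fl
        rw [hpoly]
        rw [show S1.factorization 2 + 1 + 2 - 1 = S1.factorization 2 + 2 by omega,
          show S1.factorization 2 + 1 - 1 = S1.factorization 2 by omega]
      · have hw := hone S1 hS0.ne' h2S h4
        rw [hw]
        unfold fl
        rw [hpoly]
        rw [show 1 + T1.factorization 2 + 2 - 1 = T1.factorization 2 + 2 by omega,
          show 1 + T1.factorization 2 - 1 = T1.factorization 2 by omega]
    rw [e6]
    ring
  · rw [if_neg h2, add_zero]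
    have hT2 : T1.factorization 2 = 0 := Nat.factorization_eq_zero_of_not_dvd (by omega)
    have hS2 : S1.factorization 2 = 0 := Nat.factorization_eq_zero_of_not_dvd (by omega)
    rw [hT2, hS2, fl_zero]
    simp

end Pool.Agent.Run7.h483.P21
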