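import Pool.Agent.Run7.h483.P21.Par

/-!
# P21 (helper483): the induction for the parity of the Gross sums
-/

set_option autoImplicit false

namespace Pool.Agent.Run7.h483.P21

open Finset
open Pool.Agent.N969.P15 (V3 tw Qc)
open Pool.Agent.Run7.h843.P21 (ip vec rr rr0 cc cp cp0 cp7 lrest loc loc7 I7 S_PC S_CP7 Cls0 Cls7
  S_R S_PAR S_U77 S_U7s)
open Pool.Agent.Run7.h483.P15 (dd dd_neg tri sum_even odd_dvd par_mul om_mul div_facts sym_div)

/-- the step for the class `Cls7` -/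
theorem J7_step (hPC : S_PC) (hCP7 : S_CP7) (hR : S_R) {m : ℕ}
    (hI0 : ∀ d, d < m → J0' d) (hI7 : ∀ d, d < m → J7' d) : J7' m := by
  intro hm
  obtain ⟨hs, h4, h7, h3, h2, h31⟩ := cls7_facts hm
  by_cases h1 : m = 1
  · subst h1
    have h6 : rr ((7 * 1 : ℕ) : ℤ) = 12 := rr_seven.1
    have h7 : cc ((7 * 1 : ℕ) : ℤ) = 12 := rr_seven.2
    rw [h6, h7]
    simp
  have hpos : 0 < m := Nat.pos_of_ne_zero hs.ne_zero
  have h1' : 1 < m := by omega
  have hns := Pool.Agent.Run7.h483.P15.nsq hs h1'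
  have hU := U77_of hPC hCP7 hR hm h1' hI0
  have hn9 : ∀ d, d ∣ m → ¬ 49 ∣ 7 * d := by
    intro d hd h
    apply h7
    have h6 : 7 ∣ d := by
      have h7 : 7 * 7 ∣ 7 * d := h
      exact Nat.dvd_of_mul_dvd_mul_left (by norm_num) h7
    exact h6.trans hd
  have e1 : (24 : ℤ) * ∑ d ∈ m.divisors.filter (fun d => d % 4 = 1),
      (cp0 (7 * d : ℕ) (7 * (m / d) : ℕ) : ℤ) = ∑ d ∈ m.divisors.filter (fun d => d % 4 = 1),
      (3 * rr (7 * d : ℕ) * rr (7 * (m / d) : ℕ) + cc (7 * d : ℕ) * cc (7 * (m / d) : ℕ)) := by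
    rw [mul_sum]
    refine sum_congr rfl fun d hd => ?_
    rw [mem_filter, Nat.mem_divisors] at hd
    exact t_REL77 (7 * d) (7 * (m / d)) (Dvd.intro _ rfl) (hn9 d hd.1.1) (Dvd.intro _ rfl)
      (hn9 _ (Nat.div_dvd_of_dvd hd.1.1))
  have hmod : ∀ d, d ∣ m → d % 4 = 1 → (m / d) % 4 = 1 := by
    intro d hd hq
    obtain ⟨k1, k2, k3⟩ := div_facts hs.ne_zero hd
    generalize m / d = e at k1 k3 ⊢
    have h := Nat.mul_mod d e 4
    rw [k1, hq] at h
    omega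
  have e2 := sym_div hs.ne_zero hns (fun d => d % 4 = 1) hmod
    (fun d => 3 * rr (7 * d : ℕ) * rr (7 * (m / d) : ℕ) + cc (7 * d : ℕ) * cc (7 * (m / d) : ℕ))
    (fun d hd _ => by
      rw [Nat.div_div_self hd hs.ne_zero]
      ring)
  rw [e2] at e1
  have hmem : 1 ∈ m.divisors.filter (fun d => d % 4 = 1 ∧ d < m / d) := by
    rw [mem_filter, Nat.mem_divisors]
    refine ⟨⟨one_dvd m, hs.ne_zero⟩, by norm_num, ?_⟩
    rw [Nat.div_one]
    exact h1'
  rw [← add_sum_erase _ _ hmem] at e1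
  have e3 : (2 : ℤ) ^ (m.primeFactors.card + 5) ∣
      ∑ d ∈ (m.divisors.filter (fun d => d % 4 = 1 ∧ d < m / d)).erase 1,
      (3 * rr (7 * d : ℕ) * rr (7 * (m / d) : ℕ) + cc (7 * d : ℕ) * cc (7 * (m / d) : ℕ)) := by
    refine dvd_sum fun d hd => ?_
    rw [mem_erase, mem_filter, Nat.mem_divisors] at hd
    obtain ⟨hd1, ⟨hdm, _⟩, hd4, hlt⟩ := hd
    obtain ⟨k1, k2, k3⟩ := div_facts hs.ne_zero hdm
    have he4 := hmod d hdm hd4
    have hs1 := hs.squarefree_of_dvd hdm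
    have hs2 := hs.squarefree_of_dvd (Nat.div_dvd_of_dvd hdm)
    have ho := om_mul hs hdm
    have hd7 : ¬ 7 ∣ d := fun h => h7 (h.trans hdm)
    have he7 : ¬ 7 ∣ m / d := fun h => h7 (h.trans (Nat.div_dvd_of_dvd hdm))
    generalize m / d = e at k1 k3 hlt he4 hs2 ho he7 ⊢
    have hd3 : d % 3 = 0 ∨ d % 3 = 1 ∨ d % 3 = 2 := by omega
    by_cases h13 : d % 3 = 1
    · have e3 : e % 3 = 1 := by
        have h := Nat.mul_mod d e 3
        rw [k1, h13] at h
        omega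
      have c1 : Cls7 d := ⟨hs1, hd4, hd7, h13⟩
      have c2 : Cls7 e := ⟨hs2, he4, he7, e3⟩
      have l1 : d < m := by nlinarith
      have l2 : e < m := by
        have : 1 < d := by omega
        nlinarith
      have h := (par_mul (R7 hR c1) (hI7 d l1 c1) (R7 hR c2) (hI7 e l2 c2)).1
      have e6 : d.primeFactors.card + 2 + (e.primeFactors.card + 2) + 1 =
          m.primeFactors.card + 5 := by omega
      rwa [e6] at h
    · have hd0 : d % 3 ≠ 0 := fun h => h3 ((Nat.dvd_of_mod_eq_zero h).trans hdm)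
      have h6 : ((7 * d : ℕ) : ℤ) % 3 = 2 := by
        push_cast
        omega
      rw [(rr_none h6).1, (rr_none h6).2]
      simp
  have e4 : 3 * rr ((7 * 1 : ℕ) : ℤ) * rr ((7 * (m / 1) : ℕ) : ℤ) +
      cc ((7 * 1 : ℕ) : ℤ) * cc ((7 * (m / 1) : ℕ) : ℤ) =
      12 * (3 * rr (7 * m : ℕ) + cc (7 * m : ℕ)) := by
    have h6 : rr ((7 * 1 : ℕ) : ℤ) = 12 := rr_seven.1
    have h7 : cc ((7 * 1 : ℕ) : ℤ) = 12 := rr_seven.2
    rw [h6, h7, Nat.div_one]
    ring
  rw [e4] at e1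
  -- conclusion
  obtain ⟨u, hu⟩ := hU
  obtain ⟨w, hw⟩ := e3
  obtain ⟨g, hg⟩ := R7 hR hm
  rw [hu, hw] at e1
  have hp5 : (2 : ℤ) ^ (m.primeFactors.card + 5) = 4 * 2 ^ (m.primeFactors.card + 2 + 1) := by ring
  have hp3 : (2 : ℤ) ^ (m.primeFactors.card + 3) = 2 ^ (m.primeFactors.card + 2 + 1) := by ring
  have hp2 : (2 : ℤ) ^ (m.primeFactors.card + 2 + 1) = 2 * 2 ^ (m.primeFactors.card + 2) := by ring
  rw [hp5, hp3] at e1
  have e8 : 3 * (3 * rr (7 * m : ℕ) + cc (7 * m : ℕ)) =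
      2 ^ (m.primeFactors.card + 2 + 1) * (3 * u - w) := by
    linarith
  have e9 := odd_dvd 3 (by decide) ⟨_, e8⟩
  have e10 : rr (7 * m : ℕ) - cc (7 * m : ℕ) = 4 * rr (7 * m : ℕ) -
      (3 * rr (7 * m : ℕ) + cc (7 * m : ℕ)) := by ring
  rw [e10]
  refine dvd_sub ?_ e9
  rw [hg, hp2]
  exact ⟨2 * g, by ring⟩

/-- the step for the class `Cls0` -/
theorem J0_step (hPC : S_PC) (hR : S_R) {n : ℕ}
    (hI0 : ∀ d, d < n → J0' d) (hI7 : ∀ d, d < n → J7' d) : J0' n := by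
  intro hn
  obtain ⟨hs, h4, h7, h3, h3', h7', hgt⟩ := cls0_facts hn
  have hU := t_U7s hPC n hn
  have hmem : 1 ∈ n.divisors.filter (fun d => d % 4 = 1) := by
    rw [mem_filter, Nat.mem_divisors]
    exact ⟨⟨one_dvd n, hs.ne_zero⟩, by norm_num⟩
  rw [← add_sum_erase _ _ hmem] at hU
  have e3 : (2 : ℤ) ^ (n.primeFactors.card + 2) ∣
      ∑ d ∈ (n.divisors.filter (fun d => d % 4 = 1)).erase 1,
      (cp0 (7 * d : ℕ) (n / d : ℕ) : ℤ) := by
    refine dvd_sum fun d hd => ?_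
    rw [mem_erase, mem_filter, Nat.mem_divisors] at hd
    obtain ⟨hd1, ⟨hdm, _⟩, hd4⟩ := hd
    obtain ⟨k1, k2, k3⟩ := div_facts hs.ne_zero hdm
    have hs1 := hs.squarefree_of_dvd hdm
    have hs2 := hs.squarefree_of_dvd (Nat.div_dvd_of_dvd hdm)
    have ho := om_mul hs hdm
    have hd7 : ¬ 7 ∣ d := fun h => h7' (h.trans hdm)
    have h9 : ¬ 49 ∣ 7 * d := by
      intro h
      have h7 : 7 * 7 ∣ 7 * d := h
      exact hd7 (Nat.dvd_of_mul_dvd_mul_left (by norm_num) h7)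
    generalize n / d = e at k1 k3 hs2 ho ⊢
    have he4 : e % 4 = 3 := by
      have h := Nat.mul_mod d e 4
      rw [k1, hd4] at h
      omega
    have hek : e % 7 = 1 ∨ e % 7 = 2 ∨ e % 7 = 4 ∨ I7 e := by
      have h := Nat.mul_mod d e 7
      rw [k1] at h
      have h' : e % 7 = 0 ∨ e % 7 = 1 ∨ e % 7 = 2 ∨ e % 7 = 3 ∨ e % 7 = 4 ∨ e % 7 = 5 ∨
        e % 7 = 6 := by omega
      have h'' : ¬ e % 7 = 0 := by
        intro h0
        rw [h0, mul_zero] at h
        unfold I7 at h7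
        omega
      unfold I7
      omega
    by_cases heI : I7 e
    · have hr := t_REL7s (7 * d) e (Dvd.intro _ rfl) h9 heI
      have hd3c : d % 3 = 0 ∨ d % 3 = 1 ∨ d % 3 = 2 := by omega
      by_cases h13 : d % 3 = 1
      · have e31 : e % 3 = 1 := by
          have h := Nat.mul_mod d e 3
          rw [k1, h13] at h
          omega
        have c1 : Cls7 d := ⟨hs1, hd4, hd7, h13⟩
        have c2 : Cls0 e := ⟨hs2, by unfold I7 at heI; omega⟩
        have l1 : d < n := by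
          have : 1 < e := by omega
          nlinarith
        have l2 : e < n := by
          have : 1 < d := by omega
          nlinarith
        have h := (par_mul (R7 hR c1) (hI7 d l1 c1) (R0 hR c2) (hI0 e l2 c2)).1
        have e6 : d.primeFactors.card + 2 + (e.primeFactors.card + 1) + 1 =
            n.primeFactors.card + 2 + 2 := by omega
        rw [e6, ← hr, pow_add _ _ 2] at h
        have e7 : (12 : ℤ) * (cp0 (7 * d : ℕ) e : ℤ) = (3 * cp0 (7 * d : ℕ) e) * 2 ^ 2 := by ring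
        rw [e7] at h
        exact odd_dvd 3 (by decide) (Int.dvd_of_mul_dvd_mul_right (by norm_num) h)
      · have hd0 : d % 3 ≠ 0 := fun h => h3' ((Nat.dvd_of_mod_eq_zero h).trans hdm)
        have h6 : ((7 * d : ℕ) : ℤ) % 3 = 2 := by
          push_cast
          omega
        rw [(rr_none h6).1, (rr_none h6).2] at hr
        have h0 : (cp0 (7 * d : ℕ) e : ℤ) = 0 := by linarith
        rw [h0]
        exact dvd_zero _
    · rw [t_REL7n (7 * d) e (Dvd.intro _ rfl) h9 (by tauto)]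
      simp
  have e4 : (cp0 ((7 * 1 : ℕ) : ℤ) ((n / 1 : ℕ) : ℤ) : ℤ) = 3 * rr n + cc n := by
    have h := t_REL7s (7 * 1) n (Dvd.intro _ rfl) (by norm_num) h7
    rw [Nat.div_one]
    have h6 : rr ((7 * 1 : ℕ) : ℤ) = 12 := rr_seven.1
    have h7 : cc ((7 * 1 : ℕ) : ℤ) = 12 := rr_seven.2
    rw [h6, h7] at h
    linarith
  rw [e4] at hU
  have e5 := (dvd_add_left e3).1 hU
  obtain ⟨g, hg⟩ := R0 hR hn
  have e10 : rr n - cc n = 4 * rr n - (3 * rr n + cc n) := by ring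
  rw [e10]
  refine dvd_sub ?_ e5
  rw [hg]
  exact ⟨2 * g, by ring⟩

theorem J_all (hPC : S_PC) (hCP7 : S_CP7) (hR : S_R) (n : ℕ) : J0' n ∧ J7' n := by
  induction n using Nat.strong_induction_on with
  | _ n ih =>
    exact ⟨J0_step hPC hR (fun d hd => (ih d hd).1) (fun d hd => (ih d hd).2),
      J7_step hPC hCP7 hR (fun d hd => (ih d hd).1) (fun d hd => (ih d hd).2)⟩

theorem t_U77 (hPC : S_PC) (hCP7 : S_CP7) (hR : S_R) : S_U77 := fun _ hm h1 =>
  U77_of hPC hCP7 hR hm h1 fun d _ => (J_all hPC hCP7 hR d).1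

/-- PAR: the parity of the Gross sum -/
theorem t_PAR (hPC : S_PC) (hCP7 : S_CP7) (hR : S_R) : S_PAR := by
  intro n hn
  obtain ⟨hs, h4, h7, h3, h3', h7', hgt⟩ := cls0_facts hn
  obtain ⟨g, hg, hg2⟩ := hR n hs h4 h3
  obtain ⟨k, hk⟩ := (J_all hPC hCP7 hR n).1 hn
  refine ⟨g - 2 * k, ?_, ?_⟩
  · rw [hg, pow_succ _ (n.primeFactors.card + 1)] at hk
    linarith
  · rw [← hg2]
    constructor
    · rintro ⟨j, hj⟩
      exact ⟨j + k, by linarith⟩
    · rintro ⟨j, hj⟩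
      exact ⟨j - k, by linarith⟩

end Pool.Agent.Run7.h483.P21
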