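import Pool.Agent.Run7.h483.P21.REL

/-!
# P21 (helper483): REL22
-/

set_option autoImplicit false

namespace Pool.Agent.Run7.h483.P21

open Finset
open Pool.Agent.N969.P15 (V3)
open Pool.Agent.Run7.h843.P21 (ip vec rr rr0 cc cp cp0 cp7 I7 S_REL22)

/-- the indicator of the inner products -/
def wt3 (r7 r3 x : ℤ) : ℤ := if x % 7 = r7 ∧ x % 3 = r3 then 1 else 0

/-- the weighted number of pairs -/
noncomputable def TT (n1 n2 r7 r3 : ℤ) : ℤ := ∑ v ∈ vec n1, ∑ w ∈ vec n2, wt3 r7 r3 (ip v w) * LL v w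

theorem ip_sa (v w : V3) : ∃ k : ℤ, ip v (sa w) = ip v w + 3 * k := by
  refine ⟨-2 * (v 0 * w 0), ?_⟩
  unfold ip
  simp only [sa, Matrix.cons_val_zero, Matrix.cons_val_one, Matrix.cons_val]
  ring

theorem ip_sb (v w : V3) : ∃ k : ℤ, ip v (sb w) = ip v w + 3 * k := by
  refine ⟨-2 * (v 1 * w 1), ?_⟩
  unfold ip
  simp only [sb, Matrix.cons_val_zero, Matrix.cons_val_one, Matrix.cons_val]
  ring

theorem ip_sc (v w : V3) : ∃ k : ℤ, ip v (sc w) = ip v w + 3 * k := by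
  refine ⟨-2 * (v 2 * w 2), ?_⟩
  unfold ip
  simp only [sc, Matrix.cons_val_zero, Matrix.cons_val_one, Matrix.cons_val]
  ring

theorem ip_sd (v w : V3) : ∃ k : ℤ, ip v (sd w) = ip v w + 3 * k := by
  refine ⟨-2 * ((v 0 + v 2) * (w 0 + w 2)), ?_⟩
  unfold ip
  simp only [sd, Matrix.cons_val_zero, Matrix.cons_val_one, Matrix.cons_val]
  ring

theorem wt3_flip {r7 r3 x y : ℤ} (h0 : 0 < r7) (hr : r7 < 7)
    (h7 : ((x : ℤ) : ZMod 7) = -((y : ℤ) : ZMod 7))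
    (h3 : ∃ k : ℤ, x = y + 3 * k) : wt3 r7 r3 x = wt3 (7 - r7) r3 y := by
  have h : (7 : ℤ) ∣ x + y := by
    rw [dvd7]
    push_cast
    rw [h7]
    ring
  obtain ⟨k, hk⟩ := h3
  unfold wt3
  have : (x % 7 = r7 ∧ x % 3 = r3) ↔ (y % 7 = 7 - r7 ∧ y % 3 = r3) := by
    omega
  simp only [this]

theorem dl_cases (x : ZMod 7) : dl x = 0 ∨ x = 0 := by
  unfold dl
  by_cases h : x = 0
  · exact Or.inr h
  · rw [if_neg h]
    exact Or.inl rfl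

theorem sa_cast (v : V3) : (((sa v) 0 : ℤ) : ZMod 7) = -((v 0 : ℤ) : ZMod 7) ∧
    (((sa v) 1 : ℤ) : ZMod 7) = ((v 1 : ℤ) : ZMod 7) ∧
    (((sa v) 2 : ℤ) : ZMod 7) = ((v 0 : ℤ) : ZMod 7) + ((v 2 : ℤ) : ZMod 7) := by
  refine ⟨?_, ?_, ?_⟩
  · show ((-v 0 : ℤ) : ZMod 7) = _
    push_cast
    rfl
  · rfl
  · show ((v 0 + v 2 : ℤ) : ZMod 7) = _
    push_cast
    rfl

theorem sb_cast (v : V3) : (((sb v) 0 : ℤ) : ZMod 7) = ((v 0 : ℤ) : ZMod 7) ∧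
    (((sb v) 1 : ℤ) : ZMod 7) = -((v 1 : ℤ) : ZMod 7) ∧
    (((sb v) 2 : ℤ) : ZMod 7) = ((v 2 : ℤ) : ZMod 7) := by
  refine ⟨?_, ?_, ?_⟩
  · rfl
  · show ((-v 1 : ℤ) : ZMod 7) = _
    push_cast
    rfl
  · rfl

theorem sc_cast (v : V3) : (((sc v) 0 : ℤ) : ZMod 7) = ((v 0 : ℤ) : ZMod 7) + ((v 2 : ℤ) : ZMod 7) ∧
    (((sc v) 1 : ℤ) : ZMod 7) = ((v 1 : ℤ) : ZMod 7) ∧
    (((sc v) 2 : ℤ) : ZMod 7) = -((v 2 : ℤ) : ZMod 7) := by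
  refine ⟨?_, ?_, ?_⟩
  · show ((v 0 + v 2 : ℤ) : ZMod 7) = _
    push_cast
    rfl
  · rfl
  · show ((-v 2 : ℤ) : ZMod 7) = _
    push_cast
    rfl

theorem sd_cast (v : V3) : (((sd v) 0 : ℤ) : ZMod 7) = -((v 2 : ℤ) : ZMod 7) ∧
    (((sd v) 1 : ℤ) : ZMod 7) = ((v 1 : ℤ) : ZMod 7) ∧
    (((sd v) 2 : ℤ) : ZMod 7) = -((v 0 : ℤ) : ZMod 7) := by
  refine ⟨?_, ?_, ?_⟩
  · show ((-v 2 : ℤ) : ZMod 7) = _
    push_cast
    rfl
  · rfl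
  · show ((-v 0 : ℤ) : ZMod 7) = _
    push_cast
    rfl

/-- the flip for one line -/
theorem flip_one (n2 : ℤ) {r7 r3 : ℤ} (h0 : 0 < r7) (hr : r7 < 7)
    (p : ZMod 7 → ZMod 7 → ZMod 7 → ZMod 7) (s : V3 → V3)
    (hs : ∀ g : V3 → ℤ, ∑ w ∈ vec n2, g (s w) = ∑ w ∈ vec n2, g w)
    (hp : ∀ w : V3, p ((s w) 0 : ℤ) ((s w) 1 : ℤ) ((s w) 2 : ℤ) = p (w 0 : ℤ) (w 1 : ℤ) (w 2 : ℤ))
    (hi : ∀ v w : V3, ∃ k : ℤ, ip v (s w) = ip v w + 3 * k)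
    (hz : ∀ v w : V3, p (v 0 : ℤ) (v 1 : ℤ) (v 2 : ℤ) = 0 → p (w 0 : ℤ) (w 1 : ℤ) (w 2 : ℤ) = 0 →
      ((ip v (s w) : ℤ) : ZMod 7) = -((ip v w : ℤ) : ZMod 7)) (v : V3) :
    ∑ w ∈ vec n2, wt3 r7 r3 (ip v w) * (dl (p (v 0 : ℤ) (v 1 : ℤ) (v 2 : ℤ)) *
      dl (p (w 0 : ℤ) (w 1 : ℤ) (w 2 : ℤ))) =
      ∑ w ∈ vec n2, wt3 (7 - r7) r3 (ip v w) * (dl (p (v 0 : ℤ) (v 1 : ℤ) (v 2 : ℤ)) *
      dl (p (w 0 : ℤ) (w 1 : ℤ) (w 2 : ℤ))) := by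
  rw [← hs fun w => wt3 r7 r3 (ip v w) * (dl (p (v 0 : ℤ) (v 1 : ℤ) (v 2 : ℤ)) *
      dl (p (w 0 : ℤ) (w 1 : ℤ) (w 2 : ℤ)))]
  refine sum_congr rfl fun w _ => ?_
  rw [hp]
  rcases dl_cases (p (v 0 : ℤ) (v 1 : ℤ) (v 2 : ℤ)) with h | h
  · rw [h, zero_mul, mul_zero, mul_zero]
  · rcases dl_cases (p (w 0 : ℤ) (w 1 : ℤ) (w 2 : ℤ)) with h' | h'
    · rw [h', mul_zero, mul_zero, mul_zero]
    · congr 1
      exact wt3_flip h0 hr (hz v w h h') (hi v w)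

/-- the flip of the sign at `7` -/
theorem TT_flip (n1 n2 : ℤ) {r7 r3 : ℤ} (h0 : 0 < r7) (hr : r7 < 7) :
    TT n1 n2 r7 r3 = TT n1 n2 (7 - r7) r3 := by
  unfold TT LL
  refine sum_congr rfl fun v _ => ?_
  simp only [mul_add, sum_add_distrib]
  have t0 := flip_one n2 (r3 := r3) h0 hr p0 sa (sum_sa n2) (fun w => by
    obtain ⟨g0, g1, g2⟩ := sa_cast w
    rw [g0, g1, g2]; unfold p0; ring) ip_sa (fun v w h h' => by
    obtain ⟨g0, g1, g2⟩ := sa_cast w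
    rw [ip_z, ip_z, g0, g1, g2]; exact finG0 _ _ _ h _ _ _ h') v
  have t1 := flip_one n2 (r3 := r3) h0 hr p1 sa (sum_sa n2) (fun w => by
    obtain ⟨g0, g1, g2⟩ := sa_cast w
    rw [g0, g1, g2]; unfold p1; ring) ip_sa (fun v w h h' => by
    obtain ⟨g0, g1, g2⟩ := sa_cast w
    rw [ip_z, ip_z, g0, g1, g2]; exact finG1 _ _ _ h _ _ _ h') v
  have t2 := flip_one n2 (r3 := r3) h0 hr p2 sb (sum_sb n2) (fun w => by
    obtain ⟨g0, g1, g2⟩ := sb_cast w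
    rw [g0, g1, g2]; unfold p2; ring) ip_sb (fun v w h h' => by
    obtain ⟨g0, g1, g2⟩ := sb_cast w
    rw [ip_z, ip_z, g0, g1, g2]; exact finG2 _ _ _ h _ _ _ h') v
  have t3 := flip_one n2 (r3 := r3) h0 hr p3 sb (sum_sb n2) (fun w => by
    obtain ⟨g0, g1, g2⟩ := sb_cast w
    rw [g0, g1, g2]; unfold p3; ring) ip_sb (fun v w h h' => by
    obtain ⟨g0, g1, g2⟩ := sb_cast w
    rw [ip_z, ip_z, g0, g1, g2]; exact finG3 _ _ _ h _ _ _ h') v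
  have t4 := flip_one n2 (r3 := r3) h0 hr p4 sc (sum_sc n2) (fun w => by
    obtain ⟨g0, g1, g2⟩ := sc_cast w
    rw [g0, g1, g2]; unfold p4; ring) ip_sc (fun v w h h' => by
    obtain ⟨g0, g1, g2⟩ := sc_cast w
    rw [ip_z, ip_z, g0, g1, g2]; exact finG4 _ _ _ h _ _ _ h') v
  have t5 := flip_one n2 (r3 := r3) h0 hr p5 sd (sum_sd n2) (fun w => by
    obtain ⟨g0, g1, g2⟩ := sd_cast w
    rw [g0, g1, g2]; unfold p5; ring) ip_sd (fun v w h h' => by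
    obtain ⟨g0, g1, g2⟩ := sd_cast w
    rw [ip_z, ip_z, g0, g1, g2]; exact finG5 _ _ _ h _ _ _ h') v
  have t6 := flip_one n2 (r3 := r3) h0 hr p6 sc (sum_sc n2) (fun w => by
    obtain ⟨g0, g1, g2⟩ := sc_cast w
    rw [g0, g1, g2]; unfold p6; ring) ip_sc (fun v w h h' => by
    obtain ⟨g0, g1, g2⟩ := sc_cast w
    rw [ip_z, ip_z, g0, g1, g2]; exact finG6 _ _ _ h _ _ _ h') v
  have t7 := flip_one n2 (r3 := r3) h0 hr p7 sd (sum_sd n2) (fun w => by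
    obtain ⟨g0, g1, g2⟩ := sd_cast w
    rw [g0, g1, g2]; unfold p7; ring) ip_sd (fun v w h h' => by
    obtain ⟨g0, g1, g2⟩ := sd_cast w
    rw [ip_z, ip_z, g0, g1, g2]; exact finG7 _ _ _ h _ _ _ h') v
  unfold J0 J1 J2 J3 J4 J5 J6 J7
  rw [t0, t1, t2, t3, t4, t5, t6, t7]

/-- the flip of both signs -/
theorem TT_neg (n1 n2 : ℤ) {r7 r3 : ℤ} (hr : r3 = 1 ∨ r3 = 2) (h0 : 0 < r7) (h5 : r7 < 7) :
    TT n1 n2 r7 r3 = TT n1 n2 (7 - r7) (3 - r3) := by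
  unfold TT
  refine sum_congr rfl fun v _ => ?_
  rw [← sum_neg n2]
  refine sum_congr rfl fun w _ => ?_
  have e1 : ip v (-w) = -ip v w := by
    unfold ip
    simp only [Pi.neg_apply]
    ring
  have hd : ∀ x y : ZMod 7, x = -y → dl x = dl y := by
    intro x y h
    unfold dl
    simp only [h, neg_eq_zero]
  have hc : ∀ i, (((-w) i : ℤ) : ZMod 7) = -((w i : ℤ) : ZMod 7) := by
    intro i
    rw [Pi.neg_apply]
    push_cast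
    rfl
  have e2 : LL v (-w) = LL v w := by
    unfold LL J0 J1 J2 J3 J4 J5 J6 J7
    rw [hc 0, hc 1, hc 2]
    rw [hd (p0 (-((w 0 : ℤ) : ZMod 7)) (-((w 1 : ℤ) : ZMod 7)) (-((w 2 : ℤ) : ZMod 7)))
        (p0 ((w 0 : ℤ) : ZMod 7) ((w 1 : ℤ) : ZMod 7) ((w 2 : ℤ) : ZMod 7)) (by unfold p0; ring),
      hd (p1 (-((w 0 : ℤ) : ZMod 7)) (-((w 1 : ℤ) : ZMod 7)) (-((w 2 : ℤ) : ZMod 7)))
        (p1 ((w 0 : ℤ) : ZMod 7) ((w 1 : ℤ) : ZMod 7) ((w 2 : ℤ) : ZMod 7)) (by unfold p1; ring),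
      hd (p2 (-((w 0 : ℤ) : ZMod 7)) (-((w 1 : ℤ) : ZMod 7)) (-((w 2 : ℤ) : ZMod 7)))
        (p2 ((w 0 : ℤ) : ZMod 7) ((w 1 : ℤ) : ZMod 7) ((w 2 : ℤ) : ZMod 7)) (by unfold p2; ring),
      hd (p3 (-((w 0 : ℤ) : ZMod 7)) (-((w 1 : ℤ) : ZMod 7)) (-((w 2 : ℤ) : ZMod 7)))
        (p3 ((w 0 : ℤ) : ZMod 7) ((w 1 : ℤ) : ZMod 7) ((w 2 : ℤ) : ZMod 7)) (by unfold p3; ring),
      hd (p4 (-((w 0 : ℤ) : ZMod 7)) (-((w 1 : ℤ) : ZMod 7)) (-((w 2 : ℤ) : ZMod 7)))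
        (p4 ((w 0 : ℤ) : ZMod 7) ((w 1 : ℤ) : ZMod 7) ((w 2 : ℤ) : ZMod 7)) (by unfold p4; ring),
      hd (p5 (-((w 0 : ℤ) : ZMod 7)) (-((w 1 : ℤ) : ZMod 7)) (-((w 2 : ℤ) : ZMod 7)))
        (p5 ((w 0 : ℤ) : ZMod 7) ((w 1 : ℤ) : ZMod 7) ((w 2 : ℤ) : ZMod 7)) (by unfold p5; ring),
      hd (p6 (-((w 0 : ℤ) : ZMod 7)) (-((w 1 : ℤ) : ZMod 7)) (-((w 2 : ℤ) : ZMod 7)))
        (p6 ((w 0 : ℤ) : ZMod 7) ((w 1 : ℤ) : ZMod 7) ((w 2 : ℤ) : ZMod 7)) (by unfold p6; ring),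
      hd (p7 (-((w 0 : ℤ) : ZMod 7)) (-((w 1 : ℤ) : ZMod 7)) (-((w 2 : ℤ) : ZMod 7)))
        (p7 ((w 0 : ℤ) : ZMod 7) ((w 1 : ℤ) : ZMod 7) ((w 2 : ℤ) : ZMod 7)) (by unfold p7; ring)]
  rw [e1, e2]
  congr 1
  unfold wt3
  have : (-ip v w % 7 = r7 ∧ -ip v w % 3 = r3) ↔ (ip v w % 7 = 7 - r7 ∧ ip v w % 3 = 3 - r3) := by
    rcases hr with rfl | rfl <;> omega
  simp only [this]

/-- the determinant of a pair -/
theorem det_pair (v w : V3) : ∃ k : ℤ, 0 ≤ k ∧ ip v v * ip w w - ip v w ^ 2 = 12 * k := by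
  refine ⟨(v 1 * w 2 - v 2 * w 1) ^ 2 + (v 2 * w 0 - v 0 * w 2) ^ 2 +
    (v 0 * w 1 - v 1 * w 0) ^ 2 -
    (v 1 * w 2 - v 2 * w 1) * (v 0 * w 1 - v 1 * w 0), ?_, ?_⟩
  · generalize v 1 * w 2 - v 2 * w 1 = a
    generalize v 2 * w 0 - v 0 * w 2 = b
    generalize v 0 * w 1 - v 1 * w 0 = c
    nlinarith [sq_nonneg (a + c), sq_nonneg (a - c), sq_nonneg b, sq_nonneg a, sq_nonneg c]
  · unfold ip
    ring

/-- the number of common lines of a pair -/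
theorem LL_val {v w : V3} {n1 n2 : ℤ} (hv : ip v v = n1) (hw : ip w w = n2)
    (a1 : n1 % 7 = 3 ∨ n1 % 7 = 5 ∨ n1 % 7 = 6) (a2 : n2 % 7 = 3 ∨ n2 % 7 = 5 ∨ n2 % 7 = 6) :
    LL v w = if (7 : ℤ) ∣ n1 * n2 - ip v w ^ 2 then
      1 + (if ∀ i, (7 : ℤ) ∣ n2 * v i - ip v w * w i then 1 else 0) else 0 := by
  have k1 : LL v w = lin ((v 0 : ℤ) : ZMod 7) ((v 1 : ℤ) : ZMod 7) ((v 2 : ℤ) : ZMod 7)
    ((w 0 : ℤ) : ZMod 7) ((w 1 : ℤ) : ZMod 7) ((w 2 : ℤ) : ZMod 7) := rfl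
  rw [k1, finF _ _ _ (by rw [← ip_z, hv]; exact castI a1) _ _ _
    (by rw [← ip_z, hw]; exact castI a2), ← ip_z, ← ip_z, ← ip_z, hv, hw]
  have h1 : (7 : ℤ) ∣ n1 * n2 - ip v w ^ 2 ↔
      ((n1 : ℤ) : ZMod 7) * ((n2 : ℤ) : ZMod 7) = ((ip v w : ℤ) : ZMod 7) * ((ip v w : ℤ) : ZMod 7) := by
    rw [dvd7]
    push_cast
    rw [sub_eq_zero, sq]
  have hi : ∀ i, (7 : ℤ) ∣ n2 * v i - ip v w * w i ↔
      ((n2 : ℤ) : ZMod 7) * ((v i : ℤ) : ZMod 7) = ((ip v w : ℤ) : ZMod 7) * ((w i : ℤ) : ZMod 7) := by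
    intro i
    rw [dvd7]
    push_cast
    rw [sub_eq_zero]
  have hall : (∀ i, (7 : ℤ) ∣ n2 * v i - ip v w * w i) ↔
      (((n2 : ℤ) : ZMod 7) * ((v 0 : ℤ) : ZMod 7) = ((ip v w : ℤ) : ZMod 7) * ((w 0 : ℤ) : ZMod 7) ∧
      ((n2 : ℤ) : ZMod 7) * ((v 1 : ℤ) : ZMod 7) = ((ip v w : ℤ) : ZMod 7) * ((w 1 : ℤ) : ZMod 7) ∧
      ((n2 : ℤ) : ZMod 7) * ((v 2 : ℤ) : ZMod 7) = ((ip v w : ℤ) : ZMod 7) * ((w 2 : ℤ) : ZMod 7)) := by
    simp only [hi]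
    constructor
    · intro h
      exact ⟨h 0, h 1, h 2⟩
    · rintro ⟨g0, g1, g2⟩ i
      fin_cases i
      · exact g0
      · exact g1
      · exact g2
  simp only [h1, hall]

theorem t_REL22 : S_REL22 := by
  intro n1 n2 h1 h2 h13 h23 r7 r3 hr0 hr7 hr hr3 hr' B hB hB0
  have a1 : (n1 : ℤ) % 7 = 3 ∨ (n1 : ℤ) % 7 = 5 ∨ (n1 : ℤ) % 7 = 6 := by
    unfold I7 at h1
    omega
  have a2 : (n2 : ℤ) % 7 = 3 ∨ (n2 : ℤ) % 7 = 5 ∨ (n2 : ℤ) % 7 = 6 := by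
    unfold I7 at h2
    omega
  -- the left side
  have hL : ∑ b ∈ (Ioo (-B) B).filter (fun b : ℤ => b % 7 = r7 ∧ b % 3 = r3),
      ((cp n1 b n2 : ℤ) + cp7 n1 b n2) = TT n1 n2 r7 r3 := by
    have e1 : ∀ b : ℤ, (cp n1 b n2 : ℤ) + cp7 n1 b n2 = ∑ v ∈ vec n1, ∑ w ∈ vec n2,
        if ip v w = b then (1 + if ∀ i, (7 : ℤ) ∣ n2 * v i - b * w i then (1 : ℤ) else 0) else 0 := by
      intro b
      unfold cp cp7
      rw [card_filter, card_filter, sum_product, sum_product]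
      push_cast
      rw [← sum_add_distrib]
      refine sum_congr rfl fun v _ => ?_
      rw [← sum_add_distrib]
      refine sum_congr rfl fun w _ => ?_
      by_cases h : ip v w = b
      · simp only [h, true_and, if_true]
      · simp only [h, false_and, if_false, add_zero]
    rw [sum_congr rfl fun b _ => e1 b, sum_comm]
    unfold TT
    refine sum_congr rfl fun v hv => ?_
    rw [sum_comm]
    refine sum_congr rfl fun w hw => ?_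
    rw [mem_vec] at hv hw
    rw [sum_ite_eq]
    have hIoo : ip v w ∈ (Ioo (-B) B).filter (fun b : ℤ => b % 7 = r7 ∧ b % 3 = r3) ↔
        (ip v w % 7 = r7 ∧ ip v w % 3 = r3) := by
      rw [mem_filter, mem_Ioo]
      refine and_iff_right ?_
      obtain ⟨k, hk0, hk⟩ := det_pair v w
      rw [hv, hw] at hk
      have h3 : ip v w ^ 2 < B ^ 2 := by linarith
      have h4 := abs_lt_of_sq_lt_sq h3 hB0.le
      exact abs_lt.1 h4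
    unfold wt3
    simp only [hIoo]
    by_cases h : ip v w % 7 = r7 ∧ ip v w % 3 = r3
    · rw [if_pos h, if_pos h, one_mul, LL_val hv hw a1 a2]
      have h7 : (7 : ℤ) ∣ (n1 : ℤ) * n2 - ip v w ^ 2 := by
        have e : (n1 : ℤ) * n2 - ip v w ^ 2 = -(r7 ^ 2 - n1 * n2) - (ip v w - r7) * (ip v w + r7) := by
          ring
        rw [e]
        refine dvd_sub ((dvd_neg).2 hr) (Dvd.dvd.mul_right ?_ _)
        omega
      rw [if_pos h7]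
    · rw [if_neg h, if_neg h, zero_mul]
  -- the total
  have hT : ∑ v ∈ vec n1, ∑ w ∈ vec n2, LL v w =
      TT n1 n2 r7 r3 + TT n1 n2 (7 - r7) r3 + TT n1 n2 r7 (3 - r3) + TT n1 n2 (7 - r7) (3 - r3) := by
    unfold TT
    rw [← sum_add_distrib, ← sum_add_distrib, ← sum_add_distrib]
    refine sum_congr rfl fun v hv => ?_
    rw [← sum_add_distrib, ← sum_add_distrib, ← sum_add_distrib]
    refine sum_congr rfl fun w hw => ?_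
    rw [mem_vec] at hv hw
    rw [← add_mul, ← add_mul, ← add_mul]
    by_cases hne : (7 : ℤ) ∣ (n1 : ℤ) * n2 - ip v w ^ 2
    · obtain ⟨k, hk0, hk⟩ := det_pair v w
      rw [hv, hw] at hk
      have h3 : (3 : ℤ) ∣ (ip v w - r3) * (ip v w + r3) := by
        obtain ⟨j, hj⟩ := hr'
        refine ⟨-4 * k - j, ?_⟩
        linear_combination -hk - hj
      have h7 : (7 : ℤ) ∣ (ip v w - r7) * (ip v w + r7) := by
        obtain ⟨j, hj⟩ := hr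
        obtain ⟨i, hi⟩ := hne
        refine ⟨-i - j, ?_⟩
        linear_combination -hi - hj
      have h7' : ip v w % 7 = r7 ∨ ip v w % 7 = 7 - r7 := by
        have p7 : Prime (7 : ℤ) := by norm_num
        rcases p7.dvd_or_dvd h7 with h | h
        · left; omega
        · right; omega
      have h3' : ip v w % 3 = r3 ∨ ip v w % 3 = 3 - r3 := by
        have p3 : Prime (3 : ℤ) := by norm_num
        rcases p3.dvd_or_dvd h3 with h | h <;> rcases hr3 with h'' | h'' <;> omega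
      have hsum : wt3 r7 r3 (ip v w) + wt3 (7 - r7) r3 (ip v w) + wt3 r7 (3 - r3) (ip v w) +
          wt3 (7 - r7) (3 - r3) (ip v w) = 1 := by
        unfold wt3
        have q1 : ¬ r7 = 7 - r7 := by omega
        have q2 : ¬ r3 = 3 - r3 := by omega
        have q3 : ¬ 7 - r7 = r7 := by omega
        have q4 : ¬ 3 - r3 = r3 := by omega
        rcases h7' with h7' | h7' <;> rcases h3' with h3' | h3' <;> rw [h3', h7'] <;>
          simp [q1, q2, q3, q4]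
      rw [hsum, one_mul]
    · have h0 : LL v w = 0 := by
        rw [LL_val hv hw a1 a2, if_neg hne]
      rw [h0, mul_zero]
  have q1 := TT_flip n1 n2 (r3 := r3) hr0 hr7
  have q2 := TT_neg n1 n2 hr3 hr0 hr7
  have q3 := TT_flip n1 n2 (r3 := 3 - r3) hr0 hr7
  rw [sum_LL] at hT
  have c1 : cc (n1 : ℤ) = rr n1 - 4 * rr0 n1 := by
    unfold cc
    rw [if_neg (by omega)]
  have c2 : cc (n2 : ℤ) = rr n2 - 4 * rr0 n2 := by
    unfold cc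
    rw [if_neg (by omega)]
  have d1 := seven_two a1
  have d2 := seven_two a2
  rw [hL, c1, c2]
  have e0 : 4 * TT n1 n2 r7 r3 = 2 * (rr0 n1 * rr0 n2) + 6 * (N0 n1 * N0 n2) := by linarith
  have f1 : rr n1 = rr0 n1 + 3 * N0 n1 := by linarith
  have f2 : rr n2 = rr0 n2 + 3 * N0 n2 := by linarith
  have e2 : 24 * TT n1 n2 r7 r3 = 6 * (4 * TT n1 n2 r7 r3) := by ring
  rw [e2, e0, f1, f2]
  ring

end Pool.Agent.Run7.h483.P21
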