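import Pool.Agent.Run7.h483.P21.REL2
import Pool.Agent.Run7.h483.P15.Gd

/-!
# P21 (helper483): the local densities are integral combinations of characters
-/

set_option autoImplicit false

namespace Pool.Agent.Run7.h483.P21

open Finset
open Pool.Agent.Run7.h843.P21 (lrest loc I7)
open Pool.Agent.Run7.h483.P15 (Gd c4 gd_c4 gd_mem dvd_prodP gd_fac gd_tw hc gd_hc)
open Pool.Agent.Z700 (hh fac)

variable {P : Finset ℕ} {c : Finset ℕ → Prop}

theorem ch7 (A : Finset ℕ) (hA : ∀ p ∈ A, p % 7 ≠ 0) :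
    ∏ p ∈ A, (if p % 7 = 1 ∨ p % 7 = 2 ∨ p % 7 = 4 then (1 : ℤ) else -1) =
      (if (∏ p ∈ A, p) % 7 = 1 ∨ (∏ p ∈ A, p) % 7 = 2 ∨ (∏ p ∈ A, p) % 7 = 4 then 1 else -1) ∧
      (∏ p ∈ A, p) % 7 ≠ 0 := by
  induction A using Finset.induction_on with
  | empty => simp
  | insert a s ha ih =>
    obtain ⟨h1, h2⟩ := ih fun p hp => hA p (mem_insert_of_mem hp)
    have h3 := hA a (mem_insert_self a s)
    rw [prod_insert ha, prod_insert ha, h1]
    have h4 : a % 7 = 1 ∨ a % 7 = 2 ∨ a % 7 = 3 ∨ a % 7 = 4 ∨ a % 7 = 5 ∨ a % 7 = 6 := by omega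
    have h5 : (∏ p ∈ s, p) % 7 = 1 ∨ (∏ p ∈ s, p) % 7 = 2 ∨ (∏ p ∈ s, p) % 7 = 3 ∨
      (∏ p ∈ s, p) % 7 = 4 ∨ (∏ p ∈ s, p) % 7 = 5 ∨ (∏ p ∈ s, p) % 7 = 6 := by omega
    constructor
    · rcases h4 with h4 | h4 | h4 | h4 | h4 | h4 <;> rcases h5 with h5 | h5 | h5 | h5 | h5 | h5 <;>
        simp [Nat.mul_mod, h4, h5]
    · rcases h4 with h4 | h4 | h4 | h4 | h4 | h4 <;> rcases h5 with h5 | h5 | h5 | h5 | h5 | h5 <;>
        simp [Nat.mul_mod, h4, h5]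

/-- the condition modulo `7` -/
def c7 (A : Finset ℕ) : Prop := I7 (∏ p ∈ A, p)

instance (n : ℕ) : Decidable (I7 n) := by unfold I7; infer_instance

instance : DecidablePred c7 := fun A => by unfold c7; infer_instance

theorem gd_c7 (hP : ∀ p ∈ P, p % 7 ≠ 0) : Gd P c (fun A => if c7 A then 2 else 0) := by
  refine ((Gd.const 1).add ((Gd.const (-1)).mul (Gd.char (fun p => if p % 7 = 1 ∨ p % 7 = 2 ∨
    p % 7 = 4 then (1 : ℤ) else -1) fun p _ => ?_))).congr ?_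
  · by_cases h : p % 7 = 1 ∨ p % 7 = 2 ∨ p % 7 = 4
    · left; exact if_pos h
    · right; exact if_neg h
  · intro A hA _
    obtain ⟨h1, h2⟩ := ch7 A fun p hp => hP p (hA hp)
    rw [h1]
    unfold c7 I7
    have h5 : (∏ p ∈ A, p) % 7 = 1 ∨ (∏ p ∈ A, p) % 7 = 2 ∨ (∏ p ∈ A, p) % 7 = 3 ∨
      (∏ p ∈ A, p) % 7 = 4 ∨ (∏ p ∈ A, p) % 7 = 5 ∨ (∏ p ∈ A, p) % 7 = 6 := by omega
    rcases h5 with h5 | h5 | h5 | h5 | h5 | h5 <;> simp [h5]

/-- the local densities away from `7` are good -/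
theorem gd_lrest {D : ℕ} (hP : ∀ p ∈ P, p.Prime) (hP2 : 2 ∉ P) (hD : D ≠ 0)
    (hv : ∀ l ∈ P, l ∣ D → l ≠ 7 → D.factorization l = 1) :
    Gd P c4 (fun A => lrest (∏ p ∈ A, p) D) := by
  have hodd : ∀ p ∈ P, p % 2 = 1 := by
    intro p hp
    rcases (hP p hp).eq_two_or_odd with h | h
    · exact absurd (h ▸ hp) hP2
    · exact h
  unfold lrest
  by_cases h5 : Odd (D.factorization 3)
  · simp only [if_pos h5]
    refine (gd_tw D hodd).mul (Gd.prod _ _ fun l hl => ?_)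
    have h1 := mem_of_mem_erase hl
    have h3 : l ≠ 7 := ne_of_mem_erase h1
    have h4 := mem_of_mem_erase (mem_of_mem_erase h1)
    exact gd_fac (Nat.prime_of_mem_primeFactors h4) hP hD
      fun hlP => hv l hlP (Nat.dvd_of_mem_primeFactors h4) h3
  · simp only [if_neg h5]
    exact Gd.const 0

/-- the local densities are good -/
theorem gd_loc {D : ℕ} (hP : ∀ p ∈ P, p.Prime) (hP2 : 2 ∉ P) (hD : D ≠ 0)
    (hv : ∀ l ∈ P, l ∣ D → D.factorization l = 1) :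
    Gd P c4 (fun A => loc (∏ p ∈ A, p) D) := by
  have hodd : ∀ p ∈ P, p % 2 = 1 := by
    intro p hp
    rcases (hP p hp).eq_two_or_odd with h | h
    · exact absurd (h ▸ hp) hP2
    · exact h
  unfold loc
  by_cases h5 : Odd (D.factorization 3)
  · simp only [if_pos h5]
    refine (gd_tw D hodd).mul (Gd.prod _ _ fun l hl => ?_)
    have h4 := mem_of_mem_erase (mem_of_mem_erase hl)
    exact gd_fac (Nat.prime_of_mem_primeFactors h4) hP hD
      fun hlP => hv l hlP (Nat.dvd_of_mem_primeFactors h4)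
  · simp only [if_neg h5]
    exact Gd.const 0

end Pool.Agent.Run7.h483.P21
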