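import Pool.Agent.Run7.h483.P21.Gd
import Pool.Agent.Run7.h483.P15.Pa

/-!
# P21 (helper483): the pairs with given inner products and the local densities
-/

set_option autoImplicit false

namespace Pool.Agent.Run7.h483.P21

open Finset
open Pool.Agent.N969.P15 (V3 tw)
open Pool.Agent.Run7.h843.P21 (ip vec rr rr0 cc cp cp0 cp7 lrest loc loc7 I7 S_PC S_CP7)
open Pool.Agent.Run7.h483.P15 (Gd c4 hc sum_even jac_neg_nat jac_prod_left dd dd_neg tri)
open Pool.Agent.Z700 (hh fac)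

/-! ### sums over the pairs -/

theorem ip_Ioo {n1 n2 B : ℤ} (hB : n1 * n2 < B ^ 2) (hB0 : 0 < B) {v w : V3} (hv : v ∈ vec n1)
    (hw : w ∈ vec n2) : ip v w ∈ Ioo (-B) B := by
  rw [mem_vec] at hv hw
  rw [mem_Ioo]
  obtain ⟨k, hk0, hk⟩ := det_pair v w
  rw [hv, hw] at hk
  have h3 : ip v w ^ 2 < B ^ 2 := by linarith
  exact abs_lt.1 (abs_lt_of_sq_lt_sq h3 hB0.le)

theorem sum_pairs {n1 n2 B : ℤ} (hB : n1 * n2 < B ^ 2) (hB0 : 0 < B) (G : ℤ → V3 → V3 → ℤ) :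
    ∑ b ∈ Ioo (-B) B, ∑ v ∈ vec n1, ∑ w ∈ vec n2, (if ip v w = b then G b v w else 0) =
    ∑ v ∈ vec n1, ∑ w ∈ vec n2, G (ip v w) v w := by
  rw [sum_comm]
  refine sum_congr rfl fun v hv => ?_
  rw [sum_comm]
  refine sum_congr rfl fun w hw => ?_
  rw [sum_ite_eq, if_pos (ip_Ioo hB hB0 hv hw)]

theorem cp_sum (n1 b n2 : ℤ) :
    (cp n1 b n2 : ℤ) = ∑ v ∈ vec n1, ∑ w ∈ vec n2, if ip v w = b then 1 else 0 := by
  unfold cp
  rw [card_filter, sum_product]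
  push_cast
  rfl

theorem cp7_sum (n1 b n2 : ℤ) :
    (cp7 n1 b n2 : ℤ) = ∑ v ∈ vec n1, ∑ w ∈ vec n2,
      if ip v w = b then (if ∀ i, (7 : ℤ) ∣ n2 * v i - b * w i then 1 else 0) else 0 := by
  unfold cp7
  rw [card_filter, sum_product]
  push_cast
  refine sum_congr rfl fun v _ => sum_congr rfl fun w _ => ?_
  by_cases h : ip v w = b
  · simp only [h, true_and, if_true]
  · simp only [h, false_and, if_false]

/-- all the pairs -/
theorem cp_all {n1 n2 B : ℤ} (hB : n1 * n2 < B ^ 2) (hB0 : 0 < B) :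
    ∑ b ∈ Ioo (-B) B, (cp n1 b n2 : ℤ) = rr n1 * rr n2 := by
  rw [sum_congr rfl fun b _ => cp_sum n1 b n2, sum_pairs hB hB0 fun _ _ _ => 1]
  unfold rr
  simp

/-- the pairs with inner product divisible by `7` -/
theorem cp0_all {n1 n2 B : ℤ} (hB : n1 * n2 < B ^ 2) (hB0 : 0 < B) :
    (cp0 n1 n2 : ℤ) = ∑ b ∈ Ioo (-B) B, if (7 : ℤ) ∣ b then (cp n1 b n2 : ℤ) else 0 := by
  have h1 : ∀ b : ℤ, (if (7 : ℤ) ∣ b then (cp n1 b n2 : ℤ) else 0) =
      ∑ v ∈ vec n1, ∑ w ∈ vec n2, if ip v w = b then (if (7 : ℤ) ∣ b then 1 else 0) else 0 := by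
    intro b
    rw [cp_sum]
    by_cases h : (7 : ℤ) ∣ b
    · simp only [h, if_true]
    · simp only [h, if_false, ite_self, sum_const_zero]
  rw [sum_congr rfl fun b _ => h1 b, sum_pairs hB hB0 fun b _ _ => if (7 : ℤ) ∣ b then 1 else 0]
  unfold cp0
  rw [card_filter, sum_product]
  push_cast
  rfl

/-- the pairs with a common line -/
theorem tot22 {n1 n2 B : ℤ} (a1 : n1 % 7 = 3 ∨ n1 % 7 = 5 ∨ n1 % 7 = 6)
    (a2 : n2 % 7 = 3 ∨ n2 % 7 = 5 ∨ n2 % 7 = 6) (hB : n1 * n2 < B ^ 2) (hB0 : 0 < B) :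
    6 * ∑ b ∈ Ioo (-B) B, (if (7 : ℤ) ∣ n1 * n2 - b ^ 2 then ((cp n1 b n2 : ℤ) + cp7 n1 b n2)
      else 0) = 3 * rr n1 * rr n2 + cc n1 * cc n2 := by
  have h1 : ∀ b : ℤ, (if (7 : ℤ) ∣ n1 * n2 - b ^ 2 then ((cp n1 b n2 : ℤ) + cp7 n1 b n2) else 0) =
      ∑ v ∈ vec n1, ∑ w ∈ vec n2, if ip v w = b then (if (7 : ℤ) ∣ n1 * n2 - b ^ 2 then
        (1 + if ∀ i, (7 : ℤ) ∣ n2 * v i - b * w i then (1 : ℤ) else 0) else 0) else 0 := by
    intro b
    rw [cp_sum, cp7_sum]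
    by_cases h : (7 : ℤ) ∣ n1 * n2 - b ^ 2
    · simp only [h, if_true]
      rw [← sum_add_distrib]
      refine sum_congr rfl fun v _ => ?_
      rw [← sum_add_distrib]
      refine sum_congr rfl fun w _ => ?_
      by_cases h' : ip v w = b
      · simp only [h', if_true]
      · simp only [h', if_false, add_zero]
    · simp only [h, if_false, ite_self, sum_const_zero]
  rw [sum_congr rfl fun b _ => h1 b, sum_pairs hB hB0 fun b v w => if (7 : ℤ) ∣ n1 * n2 - b ^ 2 then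
        (1 + if ∀ i, (7 : ℤ) ∣ n2 * v i - b * w i then (1 : ℤ) else 0) else 0]
  have h2 : ∑ v ∈ vec n1, ∑ w ∈ vec n2, (if (7 : ℤ) ∣ n1 * n2 - ip v w ^ 2 then
      (1 + if ∀ i, (7 : ℤ) ∣ n2 * v i - ip v w * w i then (1 : ℤ) else 0) else 0) =
      ∑ v ∈ vec n1, ∑ w ∈ vec n2, LL v w := by
    refine sum_congr rfl fun v hv => sum_congr rfl fun w hw => ?_
    rw [mem_vec] at hv hw
    rw [LL_val hv hw a1 a2]
  rw [h2, sum_LL]
  have c1 : cc (n1 : ℤ) = rr n1 - 4 * rr0 n1 := by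
    unfold cc
    rw [if_neg (by omega)]
  have c2 : cc (n2 : ℤ) = rr n2 - 4 * rr0 n2 := by
    unfold cc
    rw [if_neg (by omega)]
  have d1 := seven_two a1
  have d2 := seven_two a2
  rw [c1, c2]
  have f1 : rr n1 = rr0 n1 + 3 * N0 n1 := by linarith
  have f2 : rr n2 = rr0 n2 + 3 * N0 n2 := by linarith
  rw [f1, f2]
  ring

/-! ### the sums over the inner products -/

theorem sum_seven (f : ℤ → ℤ) (B : ℤ) :
    ∑ b ∈ Ioo 0 (7 * B), (if (7 : ℤ) ∣ b then f b else 0) = ∑ c ∈ Ioo 0 B, f (7 * c) := by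
  rw [← sum_filter]
  refine sum_nbij' (fun b => b / 7) (fun c => 7 * c) ?_ ?_ ?_ ?_ ?_
  · intro b hb
    simp only [mem_filter, mem_Ioo] at hb ⊢
    omega
  · intro c hc
    simp only [mem_filter, mem_Ioo] at hc ⊢
    omega
  · intro b hb
    simp only [mem_filter, mem_Ioo] at hb
    omega
  · intro c _
    omega
  · intro b hb
    simp only [mem_filter, mem_Ioo] at hb
    congr 1
    omega

/-! ### the local densities -/

theorem loc_zero (n1 : ℕ) : loc n1 0 = 0 := by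
  unfold loc
  simp

theorem lrest_zero (n1 : ℕ) : lrest n1 0 = 0 := by
  unfold lrest
  simp

theorem lrest_no3 (n1 : ℕ) {D : ℕ} (h : ¬ 3 ∣ D) : lrest n1 D = 0 := by
  unfold lrest
  rw [Nat.factorization_eq_zero_of_not_dvd h]
  simp

theorem loc_no3 (n1 : ℕ) {D : ℕ} (h : ¬ 3 ∣ D) : loc n1 D = 0 := by
  unfold loc
  rw [Nat.factorization_eq_zero_of_not_dvd h]
  simp

theorem lrest_no2 (n1 : ℕ) {D : ℕ} (h : ¬ 2 ∣ D) : lrest n1 D = 0 := by
  unfold lrest tw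
  rw [Nat.factorization_eq_zero_of_not_dvd h]
  simp

theorem loc_no2 (n1 : ℕ) {D : ℕ} (h : ¬ 2 ∣ D) : loc n1 D = 0 := by
  unfold loc tw
  rw [Nat.factorization_eq_zero_of_not_dvd h]
  simp

/-- `loc` with the factor at `7` -/
theorem loc_seven (n1 : ℕ) {D : ℕ} (hD : D ≠ 0) (h7 : 7 ∣ D) :
    loc n1 D = fac n1 D 7 * lrest n1 D := by
  unfold loc lrest
  by_cases h : Odd (D.factorization 3)
  · rw [if_pos h, if_pos h]
    have h1 : 7 ∈ (D.primeFactors.erase 2).erase 3 := by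
      simp only [mem_erase, ne_eq, Nat.mem_primeFactors]
      exact ⟨by norm_num, by norm_num, by norm_num, h7, hD⟩
    rw [← mul_prod_erase _ _ h1, erase_right_comm (a := 3) (b := 7)]
    ring
  · rw [if_neg h, if_neg h, mul_zero]

theorem jac_I7 {n1 : ℕ} (h : I7 n1) : jacobiSym (-(n1 : ℤ)) 7 = 1 := by
  rw [jacobiSym.mod_left]
  rcases h with h | h | h
  · have : (-(n1 : ℤ)) % ((7 : ℕ) : ℤ) = 4 := by omega
    rw [this]
    norm_num
  · have : (-(n1 : ℤ)) % ((7 : ℕ) : ℤ) = 2 := by omega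
    rw [this]
    norm_num
  · have : (-(n1 : ℤ)) % ((7 : ℕ) : ℤ) = 1 := by omega
    rw [this]
    exact jacobiSym.one_left 7

theorem jac_n7 {n1 : ℕ} (h : n1 % 7 = 1 ∨ n1 % 7 = 2 ∨ n1 % 7 = 4) :
    jacobiSym (-(n1 : ℤ)) 7 = -1 := by
  rw [jacobiSym.mod_left]
  rcases h with h | h | h
  · have : (-(n1 : ℤ)) % ((7 : ℕ) : ℤ) = 6 := by omega
    rw [this]
    norm_num
  · have : (-(n1 : ℤ)) % ((7 : ℕ) : ℤ) = 5 := by omega
    rw [this]
    norm_num
  · have : (-(n1 : ℤ)) % ((7 : ℕ) : ℤ) = 3 := by omega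
    rw [this]
    norm_num

theorem loc_two {n1 : ℕ} (h1 : I7 n1) (D : ℕ) :
    loc n1 D = ((D.factorization 7 : ℤ) + 1) * lrest n1 D := by
  by_cases hD : D = 0
  · rw [hD, loc_zero, lrest_zero, mul_zero]
  by_cases h7 : 7 ∣ D
  · rw [loc_seven n1 hD h7]
    congr 1
    unfold fac
    rw [if_neg (by unfold I7 at h1; omega), jac_I7 h1]
    simp
  · rw [Nat.factorization_eq_zero_of_not_dvd h7]
    unfold loc lrest
    have h4 : 7 ∉ D.primeFactors.erase 2 := by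
      intro h
      exact h7 (Nat.dvd_of_mem_primeFactors (mem_of_mem_erase h))
    rw [erase_eq_of_notMem h4]
    simp

theorem pr7 : Nat.Prime 7 := by norm_num

theorem fn_fact {E l : ℕ} (hE : E ≠ 0) (hl : l.Prime) (h7 : l ≠ 7) :
    (49 * E).factorization l = E.factorization l := by
  rw [Nat.factorization_mul (by norm_num) hE]
  simp only [Finsupp.coe_add, Pi.add_apply, Nat.add_eq_right]
  refine Nat.factorization_eq_zero_of_not_dvd fun h => h7 ?_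
  have h1 : l ∣ 7 ^ 2 := by norm_num; exact h
  exact (Nat.prime_dvd_prime_iff_eq hl pr7).1 (hl.dvd_of_dvd_pow h1)

theorem fn_fact7 {E : ℕ} (hE : E ≠ 0) : (49 * E).factorization 7 = E.factorization 7 + 2 := by
  have h9 : (49 : ℕ) = 7 ^ 2 := by norm_num
  rw [h9, Nat.factorization_mul (by norm_num) hE]
  simp only [Finsupp.coe_add, Pi.add_apply]
  rw [Nat.Prime.factorization_pow pr7]
  simp [add_comm]

theorem lrest_fn (n1 E : ℕ) : lrest n1 (49 * E) = lrest n1 E := by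
  by_cases hE : E = 0
  · rw [hE]
  unfold lrest tw
  rw [fn_fact hE Nat.prime_three (by norm_num), fn_fact hE Nat.prime_two (by norm_num)]
  by_cases h : Odd (E.factorization 3)
  · rw [if_pos h, if_pos h]
    congr 1
    have hs : (((49 * E).primeFactors.erase 2).erase 7).erase 3 =
        ((E.primeFactors.erase 2).erase 7).erase 3 := by
      ext l
      simp only [mem_erase, ne_eq, Nat.mem_primeFactors]
      constructor
      · rintro ⟨h3, h7, h2, hl, hd, _⟩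
        refine ⟨h3, h7, h2, hl, ?_, hE⟩
        rcases (Nat.Prime.dvd_mul hl).1 hd with h' | h'
        · exfalso
          have h1 : l ∣ 7 ^ 2 := by norm_num; exact h'
          exact h7 ((Nat.prime_dvd_prime_iff_eq hl pr7).1 (hl.dvd_of_dvd_pow h1))
        · exact h'
      · rintro ⟨h3, h7, h2, hl, hd, _⟩
        exact ⟨h3, h7, h2, hl, Dvd.dvd.mul_left hd 49, by positivity⟩
    rw [hs]
    refine prod_congr rfl fun l hl => ?_
    have h7 : l ≠ 7 := ne_of_mem_erase (mem_of_mem_erase hl)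
    have hlE := mem_of_mem_erase (mem_of_mem_erase (mem_of_mem_erase hl))
    have hlp := Nat.prime_of_mem_primeFactors hlE
    have hj9 : jacobiSym ((49 : ℕ) : ℤ) l = 1 := by
      have h1 : ((49 : ℕ) : ℤ) = 7 ^ 2 := by norm_num
      rw [h1]
      refine jacobiSym.sq_one' ?_
      rw [Int.gcd_eq_natAbs]
      exact (Nat.coprime_primes pr7 hlp).2 (Ne.symm h7)
    have hf := fn_fact hE hlp h7
    have hq : 49 * E / l ^ E.factorization l = 49 * (E / l ^ E.factorization l) :=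
      Nat.mul_div_assoc 49 (Nat.ordProj_dvd E l)
    unfold fac hh
    rw [hf, hq]
    have e1 : ∀ x : ℕ, jacobiSym (-((49 * x : ℕ) : ℤ)) l = jacobiSym (-(x : ℤ)) l := by
      intro x
      rw [jac_neg_nat, jac_neg_nat, Nat.cast_mul, jacobiSym.mul_left, hj9, one_mul]
    have e2 : n1 / l * (49 * (E / l ^ E.factorization l)) =
        49 * (n1 / l * (E / l ^ E.factorization l)) := by ring
    rw [e2, e1, e1]
  · rw [if_neg h, if_neg h]

/-! ### the pair counts -/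

theorem cp_zero {n1 n2 : ℕ} {b : ℤ} (h : (n1 : ℤ) * n2 < b ^ 2) :
    cp n1 b n2 = 0 ∧ cp7 n1 b n2 = 0 := by
  constructor
  · unfold cp
    rw [card_eq_zero, filter_eq_empty_iff]
    intro q hq h1
    rw [mem_product, mem_vec, mem_vec] at hq
    obtain ⟨k, hk0, hk⟩ := det_pair q.1 q.2
    rw [hq.1, hq.2, h1] at hk
    linarith
  · unfold cp7
    rw [card_eq_zero, filter_eq_empty_iff]
    rintro q hq ⟨h1, _⟩
    rw [mem_product, mem_vec, mem_vec] at hq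
    obtain ⟨k, hk0, hk⟩ := det_pair q.1 q.2
    rw [hq.1, hq.2, h1] at hk
    linarith

theorem cp_loc (hPC : S_PC) {n1 n2 : ℕ} (hs : Squarefree n1) (h4 : n1 % 4 = 3) (h3 : ¬ 3 ∣ n1)
    (hN : ¬ IsSquare (n1 * n2)) (b : ℤ) : (cp n1 b n2 : ℤ) = 12 * loc n1 (dd (n1 * n2) b) := by
  rcases tri hN b with h | ⟨h1, h2⟩
  · push_cast at h
    rw [(cp_zero h).1]
    unfold dd
    have : ((n1 * n2 : ℕ) : ℤ) - b ^ 2 ≤ 0 := by push_cast; linarith
    rw [Int.toNat_of_nonpos this, loc_zero]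
    simp
  · exact hPC n1 n2 b _ hs h4 h3 h1 (by rw [h2]; push_cast; ring)

theorem cp7_loc (hCP7 : S_CP7) {n1 n2 : ℕ} (hs : Squarefree n1) (h4 : n1 % 4 = 3)
    (h7 : I7 n1) (h7' : I7 n2) (h3 : ¬ 3 ∣ n1)
    (hN : ¬ IsSquare (n1 * n2)) {b : ℤ} (hb : (7 : ℤ) ∣ (n1 : ℤ) * n2 - b ^ 2) :
    (cp n1 b n2 : ℤ) + cp7 n1 b n2 = 24 * loc7 n1 (dd (n1 * n2) b) := by
  rcases tri hN b with h | ⟨h1, h2⟩
  · push_cast at h
    rw [(cp_zero h).1, (cp_zero h).2]
    unfold dd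
    have : ((n1 * n2 : ℕ) : ℤ) - b ^ 2 ≤ 0 := by push_cast; linarith
    rw [Int.toNat_of_nonpos this]
    unfold loc7
    rw [lrest_zero]
    simp
  · refine hCP7 n1 n2 b _ hs h4 h7 h7' h3 ?_ h1 (by rw [h2]; push_cast; ring)
    have h5 : (7 : ℤ) ∣ (dd (n1 * n2) b : ℤ) := by
      rw [h2]
      push_cast
      exact hb
    exact_mod_cast h5

/-- the sum of the densities, both signs -/
theorem sumA (hPC : S_PC) (hCP7 : S_CP7) {n1 n2 : ℕ} (hs : Squarefree n1) (h4 : n1 % 4 = 3)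
    (h7 : I7 n1) (h7' : I7 n2) (h3 : ¬ 3 ∣ n1) (hN : ¬ IsSquare (n1 * n2)) {B : ℤ}
    (hB : (n1 : ℤ) * n2 < B ^ 2) (hB0 : 0 < B) :
    144 * ∑ b ∈ Ioo (-B) B, lrest n1 (dd (n1 * n2) b) = 9 * rr n1 * rr n2 - cc n1 * cc n2 := by
  have e1 := cp_all hB hB0
  have e2 := tot22 (n1 := (n1 : ℤ)) (n2 := (n2 : ℤ)) (by unfold I7 at h7; omega)
    (by unfold I7 at h7'; omega) hB hB0
  have e3 : ∀ b ∈ Ioo (-B) B, 24 * lrest n1 (dd (n1 * n2) b) = 2 * (cp n1 b n2 : ℤ) -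
      (if (7 : ℤ) ∣ (n1 : ℤ) * n2 - b ^ 2 then ((cp n1 b n2 : ℤ) + cp7 n1 b n2) else 0) := by
    intro b _
    by_cases hb : (7 : ℤ) ∣ (n1 : ℤ) * n2 - b ^ 2
    · rw [if_pos hb, cp7_loc hCP7 hs h4 h7 h7' h3 hN hb, cp_loc hPC hs h4 h3 hN, loc_two h7]
      unfold loc7
      ring
    · rw [if_neg hb, cp_loc hPC hs h4 h3 hN, loc_two h7]
      rcases tri hN b with h | ⟨k1, k2⟩
      · have h0 : dd (n1 * n2) b = 0 := by
          unfold dd
          exact Int.toNat_of_nonpos (by linarith)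
        rw [h0, lrest_zero]
        ring
      · have h0 : (dd (n1 * n2) b).factorization 7 = 0 := by
          refine Nat.factorization_eq_zero_of_not_dvd fun h => ?_
          have h6 : (7 : ℤ) ∣ (dd (n1 * n2) b : ℤ) := by exact_mod_cast h
          rw [k2] at h6
          push_cast at h6
          exact hb h6
        rw [h0]
        push_cast
        ring
  have e4 : 24 * ∑ b ∈ Ioo (-B) B, lrest n1 (dd (n1 * n2) b) =
      2 * ∑ b ∈ Ioo (-B) B, (cp n1 b n2 : ℤ) -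
      ∑ b ∈ Ioo (-B) B, (if (7 : ℤ) ∣ (n1 : ℤ) * n2 - b ^ 2 then
        ((cp n1 b n2 : ℤ) + cp7 n1 b n2) else 0) := by
    rw [mul_sum, mul_sum, ← sum_sub_distrib]
    exact sum_congr rfl e3
  rw [e1] at e4
  linarith

/-- the sum of the densities with the valuation at `7` -/
theorem sumB (hPC : S_PC) {n1 n2 : ℕ} (hs : Squarefree n1) (h4 : n1 % 4 = 3)
    (h7 : I7 n1) (h3 : ¬ 3 ∣ n1) (hN : ¬ IsSquare (n1 * n2)) {B : ℤ}
    (hB : (n1 : ℤ) * n2 < B ^ 2) (hB0 : 0 < B) :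
    12 * ∑ b ∈ Ioo (-B) B, (((dd (n1 * n2) b).factorization 7 : ℤ) + 1) *
      lrest n1 (dd (n1 * n2) b) = rr n1 * rr n2 := by
  rw [← cp_all hB hB0, mul_sum]
  refine sum_congr rfl fun b _ => ?_
  rw [cp_loc hPC hs h4 h3 hN, loc_two h7]

end Pool.Agent.Run7.h483.P21
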