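import Pool.Agent.Run7.h483.P21.U
import Pool.Agent.Run7.h483.P15.Par

/-!
# P21 (helper483): U7s, U77 and PAR, the parity of the Gross sums
-/

set_option autoImplicit false

namespace Pool.Agent.Run7.h483.P21

open Finset
open Pool.Agent.N969.P15 (V3 tw Qc)
open Pool.Agent.Run7.h843.P21 (ip vec rr rr0 cc cp cp0 cp7 lrest loc loc7 I7 S_PC S_CP7 Cls0 Cls7
  S_R S_PAR S_U77 S_U7s)
open Pool.Agent.Run7.h483.P15 (dd dd_neg tri sum_even odd_dvd par_mul om_mul div_facts sym_div)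

/-! ### small facts -/

theorem par_mul9 {a b : ℕ} {x y x' y' : ℤ} (h1 : (2 : ℤ) ^ a ∣ x) (h2 : (2 : ℤ) ^ (a + 1) ∣ x - x')
    (h3 : (2 : ℤ) ^ b ∣ y) (h4 : (2 : ℤ) ^ (b + 1) ∣ y - y') :
    (2 : ℤ) ^ (a + b + 1) ∣ 9 * x * y - x' * y' := by
  have h := (par_mul h1 h2 h3 h4).2
  have e : 9 * x * y - x' * y' = (3 * x * y - x' * y') + 6 * (x * y) := by ring
  rw [e]
  refine dvd_add h ?_
  rw [pow_succ, pow_add, mul_comm (2 ^ a * 2 ^ b : ℤ) 2]
  have e6 : (6 : ℤ) * (x * y) = 2 * (3 * (x * y)) := by ring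
  rw [e6]
  exact mul_dvd_mul_left 2 (Dvd.dvd.mul_left (mul_dvd_mul h1 h3) 3)

/-- no vectors of norm `2` modulo `3` -/
theorem no_vec {n : ℤ} (h : n % 3 = 2) : vec n = ∅ := by
  rw [eq_empty_iff_forall_notMem]
  intro v hv
  rw [mem_vec, ip_self] at hv
  have h1 : n = (2 * v 0 + v 2) ^ 2 + 3 * (v 1 ^ 2 + v 2 ^ 2) := by
    rw [← hv]
    unfold Q3
    ring
  generalize v 1 ^ 2 + v 2 ^ 2 = t at h1
  generalize 2 * v 0 + v 2 = s at h1
  have h2 : s ^ 2 % 3 = 0 ∨ s ^ 2 % 3 = 1 := by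
    have h3 : s % 3 = 0 ∨ s % 3 = 1 ∨ s % 3 = 2 := by omega
    rcases h3 with h3 | h3 | h3 <;> simp [pow_two, Int.mul_emod, h3]
  generalize s ^ 2 = u at h1 h2
  omega

theorem rr_none {n : ℤ} (h : n % 3 = 2) : rr n = 0 ∧ cc n = 0 := by
  unfold cc rr rr0
  rw [no_vec h]
  simp

/-- the vectors with small coordinates -/
noncomputable def box7 : Finset (ℤ × ℤ × ℤ) := ((Icc (-1) 1 ×ˢ Icc (-1) 1 ×ˢ Icc (-1) 1).filter fun q =>
  Q3 q.1 q.2.1 q.2.2 = 7)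

theorem vec7 : (vec 7).card = 12 ∧ ((vec 7).filter fun v => (7 : ℤ) ∣ v 0 + 3 * v 2).card = 0 := by
  have key : ∀ v ∈ vec 7, (v 0, v 1, v 2) ∈ box7 := by
    intro v hv
    rw [mem_vec, ip_self] at hv
    have h1 : (2 * v 0 + v 2) ^ 2 + 3 * v 2 ^ 2 + 3 * v 1 ^ 2 = 7 := by
      rw [← hv]
      unfold Q3
      ring
    have h2 : (v 0 + 2 * v 2) ^ 2 + 3 * v 0 ^ 2 + 3 * v 1 ^ 2 = 7 := by
      rw [← hv]
      unfold Q3
      ring
    have hb : ∀ x : ℤ, x ^ 2 ≤ 3 → -1 ≤ x ∧ x ≤ 1 := by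
      intro x hx
      constructor <;> nlinarith
    have g0 := hb (v 0) (by nlinarith [sq_nonneg (v 0 + 2 * v 2), sq_nonneg (v 1)])
    have g1 := hb (v 1) (by nlinarith [sq_nonneg (v 0 + 2 * v 2), sq_nonneg (v 0)])
    have g2 := hb (v 2) (by nlinarith [sq_nonneg (2 * v 0 + v 2), sq_nonneg (v 1)])
    unfold box7
    rw [mem_filter]
    simp only [mem_product, mem_Icc]
    exact ⟨⟨g0, g1, g2⟩, hv⟩
  constructor
  · have hc : (vec 7).card = box7.card := by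
      refine card_nbij' (fun v => (v 0, v 1, v 2)) (fun q => ![q.1, q.2.1, q.2.2]) key ?_ ?_ ?_
      · intro q hq
        unfold box7 at hq
        have hq := (mem_filter.1 hq).2
        show _ ∈ vec 7
        rw [mem_vec, ip_self]
        exact hq
      · intro v _
        exact v3_ext rfl rfl rfl
      · intro q _
        rfl
    rw [hc]
    decide +kernel
  · rw [card_eq_zero, filter_eq_empty_iff]
    intro v hv
    have h := key v hv
    have hd : ∀ q ∈ box7, ¬ (7 : ℤ) ∣ q.1 + 3 * q.2.2 := by decide +kernel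
    exact hd _ h

theorem rr_seven : rr 7 = 12 ∧ cc 7 = 12 := by
  have h := vec7
  unfold cc rr rr0
  rw [h.1, h.2]
  norm_num

/-! ### the counts with inner product divisible by seven -/

theorem cp0_loc (hPC : S_PC) {n1 n2 : ℕ} (hs : Squarefree n1) (h4 : n1 % 4 = 3) (h3 : ¬ 3 ∣ n1)
    (h3' : ¬ 3 ∣ n1 * n2) (hN : ¬ IsSquare (n1 * n2)) {B : ℤ} (hB : (n1 : ℤ) * n2 < (7 * B) ^ 2)
    (hB0 : 0 < B) :
    (cp0 n1 n2 : ℤ) = 24 * ∑ c ∈ Ioo 0 B, loc n1 (dd (n1 * n2) (7 * c)) := by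
  rw [cp0_all hB (by linarith : (0 : ℤ) < 7 * B)]
  have h1 : ∀ b : ℤ, (if (7 : ℤ) ∣ b then (cp n1 b n2 : ℤ) else 0) =
      if (7 : ℤ) ∣ b then 12 * loc n1 (dd (n1 * n2) b) else 0 := by
    intro b
    rw [cp_loc hPC hs h4 h3 hN]
  rw [sum_congr rfl fun b _ => h1 b,
    sum_even (fun b : ℤ => if (7 : ℤ) ∣ b then 12 * loc n1 (dd (n1 * n2) b) else 0),
    sum_seven (fun b : ℤ => 12 * loc n1 (dd (n1 * n2) b)), ← mul_sum]
  · ring
  · intro b
    simp only [dvd_neg, dd_neg]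
  · rw [if_pos (dvd_zero _)]
    have h2 : dd (n1 * n2) 0 = n1 * n2 := by
      unfold dd
      rw [zero_pow two_ne_zero, sub_zero, Int.toNat_natCast]
    rw [h2, loc_no3 n1 h3', mul_zero]

/-! ### U7s -/

theorem cls0_facts {n : ℕ} (h : Cls0 n) : Squarefree n ∧ n % 4 = 3 ∧ I7 n ∧
    n % 3 = 1 ∧ ¬ 3 ∣ n ∧ ¬ 7 ∣ n ∧ 7 < n := by
  obtain ⟨h1, h2⟩ := h
  unfold I7
  refine ⟨h1, ?_, ?_, ?_, ?_, ?_, ?_⟩ <;> omega

theorem t_U7s (hPC : S_PC) : S_U7s := by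
  intro n hn
  obtain ⟨hs, h4, h7, h3, h3', h7', hgt⟩ := cls0_facts hn
  have hs7 : Squarefree (7 * n) := sq7 hs h7'
  have hns : ¬ IsSquare (7 * n) := Pool.Agent.Run7.h483.P15.nsq hs7 (by omega)
  have e1 : ∀ d ∈ n.divisors.filter (fun d => d % 4 = 1), (cp0 (7 * d : ℕ) (n / d : ℕ) : ℤ) =
      24 * ∑ c ∈ Ioo 0 ((n : ℤ) + 1), loc (7 * d) (dd (7 * n) (7 * c)) := by
    intro d hd
    rw [mem_filter, Nat.mem_divisors] at hd
    obtain ⟨k1, k2, k3⟩ := div_facts hs.ne_zero hd.1.1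
    have k4 : 7 * d * (n / d) = 7 * n := by rw [mul_assoc, k1]
    have k5 : ¬ 3 ∣ 7 * n := by omega
    have k6 : ((7 * d : ℕ) : ℤ) * ((n / d : ℕ) : ℤ) < (7 * ((n : ℤ) + 1)) ^ 2 := by
      have : ((7 * d : ℕ) : ℤ) * ((n / d : ℕ) : ℤ) = 7 * n := by exact_mod_cast k4
      rw [this]
      nlinarith [Int.natCast_nonneg n]
    have h := cp0_loc hPC (n1 := 7 * d) (n2 := n / d)
      (hs7.squarefree_of_dvd (Nat.mul_dvd_mul_left 7 hd.1.1)) (by omega)
      (fun h => k5 (h.trans (Nat.mul_dvd_mul_left 7 hd.1.1))) (by rw [k4]; exact k5)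
      (by rw [k4]; exact hns) k6 (by omega)
    rw [k4] at h
    exact h
  rw [sum_congr rfl e1, ← mul_sum, sum_comm]
  have h12 : (24 : ℤ) * ∑ c ∈ Ioo 0 ((n : ℤ) + 1), ∑ d ∈ n.divisors.filter (fun d => d % 4 = 1),
      loc (7 * d) (dd (7 * n) (7 * c)) = 4 * (3 * ∑ c ∈ Ioo 0 ((n : ℤ) + 1),
        2 * ∑ d ∈ n.divisors.filter (fun d => d % 4 = 1), loc (7 * d) (dd (7 * n) (7 * c))) := by
    rw [← mul_sum]
    ring
  have h13 : (2 : ℤ) ^ (n.primeFactors.card + 2) = 4 * 2 ^ n.primeFactors.card := by ring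
  rw [h12, h13]
  refine mul_dvd_mul_left 4 (Dvd.dvd.mul_left (dvd_sum fun c _ => ?_) 3)
  exact termT hs h7' (by omega) (7 * c)

/-! ### U77 -/

theorem cls7_facts {m : ℕ} (h : Cls7 m) : Squarefree m ∧ m % 4 = 1 ∧ ¬ 7 ∣ m ∧ ¬ 3 ∣ m ∧
    m % 2 = 1 ∧ m % 3 = 1 := by
  obtain ⟨h1, h2, h3, h4⟩ := h
  refine ⟨h1, h2, h3, ?_, ?_, ?_⟩ <;> omega

theorem nsq49 {m : ℕ} (hm : Squarefree m) (h1 : 1 < m) : ¬ IsSquare (49 * m) := by
  rintro ⟨r, hr⟩
  have h2 : 7 ∣ r * r := by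
    rw [← hr]
    exact Dvd.dvd.mul_right (by norm_num) m
  have h3 : 7 ∣ r := by
    rcases (Nat.Prime.dvd_mul pr7).1 h2 with h | h <;> exact h
  obtain ⟨s, rfl⟩ := h3
  exact Pool.Agent.Run7.h483.P15.nsq hm h1 ⟨s, by nlinarith⟩

/-- the sum of the counts over the divisors -/
theorem sumU (hPC : S_PC) {m : ℕ} (hm : Cls7 m) (h1 : 1 < m) :
    ∑ d ∈ m.divisors.filter (fun d => d % 4 = 1), (cp0 (7 * d : ℕ) (7 * (m / d) : ℕ) : ℤ) =
      24 * ∑ c ∈ Ioo 0 ((m : ℤ) + 1), At m c := by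
  obtain ⟨hs, h4, h7, h3, h2, h31⟩ := cls7_facts hm
  have hs7 : Squarefree (7 * m) := sq7 hs h7
  have hns : ¬ IsSquare (49 * m) := nsq49 hs h1
  have e1 : ∀ d ∈ m.divisors.filter (fun d => d % 4 = 1),
      (cp0 (7 * d : ℕ) (7 * (m / d) : ℕ) : ℤ) =
      24 * ∑ c ∈ Ioo 0 ((m : ℤ) + 1), loc (7 * d) (49 * dd m c) := by
    intro d hd
    rw [mem_filter, Nat.mem_divisors] at hd
    obtain ⟨k1, k2, k3⟩ := div_facts hs.ne_zero hd.1.1
    have k4 : 7 * d * (7 * (m / d)) = 49 * m := by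
      have : 7 * d * (7 * (m / d)) = 49 * (d * (m / d)) := by ring
      rw [this, k1]
    have k5 : ¬ 3 ∣ 7 * m := by omega
    have k6 : ((7 * d : ℕ) : ℤ) * ((7 * (m / d) : ℕ) : ℤ) < (7 * ((m : ℤ) + 1)) ^ 2 := by
      have : ((7 * d : ℕ) : ℤ) * ((7 * (m / d) : ℕ) : ℤ) = 49 * m := by exact_mod_cast k4
      rw [this]
      nlinarith [Int.natCast_nonneg m]
    have h := cp0_loc hPC (n1 := 7 * d) (n2 := 7 * (m / d))
      (hs7.squarefree_of_dvd (Nat.mul_dvd_mul_left 7 hd.1.1)) (by omega)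
      (fun h => k5 (h.trans (Nat.mul_dvd_mul_left 7 hd.1.1))) (by rw [k4]; omega)
      (by rw [k4]; exact hns) k6 (by omega)
    rw [k4] at h
    simp only [dd_fn] at h
    exact h
  rw [sum_congr rfl e1, ← mul_sum, sum_comm]
  rfl

/-- the hypothesis of the induction for the class `Cls0` -/
def J0' (n : ℕ) : Prop := Cls0 n → (2 : ℤ) ^ (n.primeFactors.card + 1 + 1) ∣ rr n - cc n

/-- the hypothesis of the induction for the class `Cls7` -/
def J7' (m : ℕ) : Prop := Cls7 m →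
  (2 : ℤ) ^ (m.primeFactors.card + 2 + 1) ∣ rr (7 * m : ℕ) - cc (7 * m : ℕ)

theorem R0 (hR : S_R) {n : ℕ} (hn : Cls0 n) : (2 : ℤ) ^ (n.primeFactors.card + 1) ∣ rr n := by
  obtain ⟨hs, h4, h7, h3, h3', h7', hgt⟩ := cls0_facts hn
  obtain ⟨g, hg, _⟩ := hR n hs h4 h3
  exact ⟨g, hg⟩

theorem R7 (hR : S_R) {m : ℕ} (hm : Cls7 m) :
    (2 : ℤ) ^ (m.primeFactors.card + 2) ∣ rr (7 * m : ℕ) := by
  obtain ⟨hs, h4, h7, h3, h2, h31⟩ := cls7_facts hm
  obtain ⟨g, hg, _⟩ := hR (7 * m) (sq7 hs h7) (by omega) (by omega)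
  rw [card7 hs.ne_zero h7] at hg
  exact ⟨g, hg⟩

/-- the factors of a number of the class which is a square modulo `7` -/
theorem split0 {m d : ℕ} (hm : Cls7 m) (h17 : m % 7 = 1 ∨ m % 7 = 2 ∨ m % 7 = 4) (hd : d ∣ m)
    (hq : d % 4 = 3 ∧ I7 d) :
    (m / d) % 4 = 3 ∧ I7 (m / d) ∧ ((d : ℤ) % 3 = 2 ∨
      (Cls0 d ∧ Cls0 (m / d) ∧ d < m ∧ m / d < m)) := by
  obtain ⟨hs, h4, h7, h3, h2, h31⟩ := cls7_facts hm
  obtain ⟨k1, k2, k3⟩ := div_facts hs.ne_zero hd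
  have hs1 := hs.squarefree_of_dvd hd
  have hs2 := hs.squarefree_of_dvd (Nat.div_dvd_of_dvd hd)
  obtain ⟨hq4, hq7⟩ := hq
  generalize hee : m / d = e at k1 k3 hs2 ⊢
  have e4 : e % 4 = 3 := by
    have h := Nat.mul_mod d e 4
    rw [k1, hq4] at h
    have h' : e % 4 = 0 ∨ e % 4 = 1 ∨ e % 4 = 2 ∨ e % 4 = 3 := by omega
    rcases h' with h' | h' | h' | h' <;> rw [h'] at h <;> omega
  have e7 : I7 e := by
    have h := Nat.mul_mod d e 7
    rw [k1] at h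
    have h' : e % 7 = 0 ∨ e % 7 = 1 ∨ e % 7 = 2 ∨ e % 7 = 3 ∨ e % 7 = 4 ∨ e % 7 = 5 ∨ e % 7 = 6 := by
      omega
    unfold I7 at hq7 ⊢
    rcases hq7 with h'' | h'' | h'' <;> rcases h' with h' | h' | h' | h' | h' | h' | h' <;>
      rw [h', h''] at h <;> omega
  refine ⟨e4, e7, ?_⟩
  have hd3 : d % 3 = 0 ∨ d % 3 = 1 ∨ d % 3 = 2 := by omega
  by_cases h14 : d % 3 = 2
  · left; omega
  · right
    have hd0 : d % 3 ≠ 0 := fun h => h3 ((Nat.dvd_of_mod_eq_zero h).trans hd)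
    have hd1 : d % 3 = 1 := by omega
    have e3 : e % 3 = 1 := by
      have h := Nat.mul_mod d e 3
      rw [k1, hd1] at h
      omega
    unfold I7 at hq7 e7
    refine ⟨⟨hs1, ?_⟩, ⟨hs2, ?_⟩, ?_, ?_⟩
    · omega
    · omega
    · have : 1 < e := by omega
      nlinarith
    · have : 1 < d := by omega
      nlinarith

theorem Ct_zero {m : ℕ} (h3 : ¬ 3 ∣ m) : Ct m 0 = 0 := by
  unfold Ct
  have h2 : dd m 0 = m := by
    unfold dd
    simp
  rw [h2]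
  exact sum_eq_zero fun d _ => lrest_no3 d h3

theorem Ct_neg (m : ℕ) (c : ℤ) : Ct m (-c) = Ct m c := by
  unfold Ct
  rw [dd_neg]

/-- the total of the terms -/
theorem H1 (hPC : S_PC) (hCP7 : S_CP7) (hR : S_R) {m : ℕ} (hm : Cls7 m) (h1 : 1 < m)
    (h17 : m % 7 = 1 ∨ m % 7 = 2 ∨ m % 7 = 4) (hI : ∀ d, d < m → J0' d) :
    (2 : ℤ) ^ (m.primeFactors.card + 4) ∣ 288 * ∑ c ∈ Ioo 0 ((m : ℤ) + 1), Ct m c := by
  obtain ⟨hs, h4, h7, h3, h2, h31⟩ := cls7_facts hm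
  have hns := Pool.Agent.Run7.h483.P15.nsq hs h1
  have e1 : (288 : ℤ) * ∑ c ∈ Ioo 0 ((m : ℤ) + 1), Ct m c =
      144 * ∑ c ∈ Ioo (-((m : ℤ) + 1)) ((m : ℤ) + 1), Ct m c := by
    rw [sum_even (Ct m) (Ct_neg m) (Ct_zero h3)]
    ring
  have e2 : (144 : ℤ) * ∑ c ∈ Ioo (-((m : ℤ) + 1)) ((m : ℤ) + 1), Ct m c =
      ∑ d ∈ m.divisors.filter (fun d => d % 4 = 3 ∧ I7 d),
        (9 * rr d * rr (m / d : ℕ) - cc d * cc (m / d : ℕ)) := by
    unfold Ct
    rw [sum_comm, mul_sum]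
    refine sum_congr rfl fun d hd => ?_
    rw [mem_filter, Nat.mem_divisors] at hd
    obtain ⟨k1, k2, k3⟩ := div_facts hs.ne_zero hd.1.1
    obtain ⟨j1, j2, _⟩ := split0 hm h17 hd.1.1 hd.2
    have k6 : (d : ℤ) * ((m / d : ℕ) : ℤ) < ((m : ℤ) + 1) ^ 2 := by
      have : (d : ℤ) * ((m / d : ℕ) : ℤ) = m := by exact_mod_cast k1
      rw [this]
      nlinarith [Int.natCast_nonneg m]
    have h := sumA hPC hCP7 (n1 := d) (n2 := m / d) (hs.squarefree_of_dvd hd.1.1) hd.2.1 hd.2.2 j2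
      (fun h => h3 (h.trans hd.1.1)) (by rw [k1]; exact hns) k6 (by omega)
    rw [k1] at h
    exact h
  rw [e1, e2, sym_div hs.ne_zero hns (fun d => d % 4 = 3 ∧ I7 d)
    (fun d hd hq => ⟨(split0 hm h17 hd hq).1, (split0 hm h17 hd hq).2.1⟩)
    (fun d => 9 * rr d * rr (m / d : ℕ) - cc d * cc (m / d : ℕ)) (fun d hd _ => by
      rw [Nat.div_div_self hd hs.ne_zero]
      ring)]
  have e3 : (2 : ℤ) ^ (m.primeFactors.card + 4) = 2 * 2 ^ (m.primeFactors.card + 3) := by ring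
  rw [e3]
  refine mul_dvd_mul_left 2 (dvd_sum fun d hd => ?_)
  rw [mem_filter, Nat.mem_divisors] at hd
  obtain ⟨_, _, h | ⟨c1, c2, l1, l2⟩⟩ := split0 hm h17 hd.1.1 hd.2.1
  · rw [(rr_none h).1, (rr_none h).2]
    simp
  · have h := par_mul9 (R0 hR c1) (hI d l1 c1) (R0 hR c2) (hI (m / d) l2 c2)
    have e6 : d.primeFactors.card + 1 + ((m / d).primeFactors.card + 1) + 1 =
        m.primeFactors.card + 3 := by
      rw [← om_mul hs hd.1.1]
      ring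
    rwa [e6] at h

/-- the total of the terms with the valuations at seven -/
theorem H2 (hPC : S_PC) (hR : S_R) {m : ℕ} (hm : Cls7 m) (h1 : 1 < m)
    (h17 : m % 7 = 1 ∨ m % 7 = 2 ∨ m % 7 = 4) :
    (2 : ℤ) ^ (m.primeFactors.card + 3) ∣
      24 * ∑ c ∈ Ioo 0 ((m : ℤ) + 1), (((dd m c).factorization 7 : ℤ) + 1) * Ct m c := by
  obtain ⟨hs, h4, h7, h3, h2, h31⟩ := cls7_facts hm
  have hns := Pool.Agent.Run7.h483.P15.nsq hs h1
  have e1 : (24 : ℤ) * ∑ c ∈ Ioo 0 ((m : ℤ) + 1), (((dd m c).factorization 7 : ℤ) + 1) * Ct m c =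
      12 * ∑ c ∈ Ioo (-((m : ℤ) + 1)) ((m : ℤ) + 1),
        (((dd m c).factorization 7 : ℤ) + 1) * Ct m c := by
    rw [sum_even (fun c => (((dd m c).factorization 7 : ℤ) + 1) * Ct m c)
      (fun c => by rw [dd_neg, Ct_neg])
      (by rw [Ct_zero h3, mul_zero])]
    ring
  have e2 : (12 : ℤ) * ∑ c ∈ Ioo (-((m : ℤ) + 1)) ((m : ℤ) + 1),
        (((dd m c).factorization 7 : ℤ) + 1) * Ct m c =
      ∑ d ∈ m.divisors.filter (fun d => d % 4 = 3 ∧ I7 d), rr d * rr (m / d : ℕ) := by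
    unfold Ct
    have e0 : ∀ c : ℤ, (((dd m c).factorization 7 : ℤ) + 1) *
        ∑ d ∈ m.divisors.filter (fun d => d % 4 = 3 ∧ I7 d), lrest d (dd m c) =
        ∑ d ∈ m.divisors.filter (fun d => d % 4 = 3 ∧ I7 d),
          (((dd m c).factorization 7 : ℤ) + 1) * lrest d (dd m c) := fun c => mul_sum _ _ _
    rw [sum_congr rfl fun c _ => e0 c, sum_comm, mul_sum]
    refine sum_congr rfl fun d hd => ?_
    rw [mem_filter, Nat.mem_divisors] at hd
    obtain ⟨k1, k2, k3⟩ := div_facts hs.ne_zero hd.1.1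
    have k6 : (d : ℤ) * ((m / d : ℕ) : ℤ) < ((m : ℤ) + 1) ^ 2 := by
      have : (d : ℤ) * ((m / d : ℕ) : ℤ) = m := by exact_mod_cast k1
      rw [this]
      nlinarith [Int.natCast_nonneg m]
    have h := sumB hPC (n1 := d) (n2 := m / d) (hs.squarefree_of_dvd hd.1.1) hd.2.1 hd.2.2
      (fun h => h3 (h.trans hd.1.1)) (by rw [k1]; exact hns) k6 (by omega)
    rw [k1] at h
    exact h
  rw [e1, e2, sym_div hs.ne_zero hns (fun d => d % 4 = 3 ∧ I7 d)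
    (fun d hd hq => ⟨(split0 hm h17 hd hq).1, (split0 hm h17 hd hq).2.1⟩)
    (fun d => rr d * rr (m / d : ℕ)) (fun d hd _ => by
      rw [Nat.div_div_self hd hs.ne_zero]
      ring)]
  have e3 : (2 : ℤ) ^ (m.primeFactors.card + 3) = 2 * 2 ^ (m.primeFactors.card + 2) := by ring
  rw [e3]
  refine mul_dvd_mul_left 2 (dvd_sum fun d hd => ?_)
  rw [mem_filter, Nat.mem_divisors] at hd
  obtain ⟨_, _, h | ⟨c1, c2, l1, l2⟩⟩ := split0 hm h17 hd.1.1 hd.2.1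
  · rw [(rr_none h).1]
    simp
  · have h := mul_dvd_mul (R0 hR c1) (R0 hR c2)
    rw [← pow_add] at h
    have e6 : d.primeFactors.card + 1 + ((m / d).primeFactors.card + 1) =
        m.primeFactors.card + 2 := by
      rw [← om_mul hs hd.1.1]
      ring
    rwa [e6] at h

theorem U77_of (hPC : S_PC) (hCP7 : S_CP7) (hR : S_R) {m : ℕ} (hm : Cls7 m) (h1 : 1 < m)
    (hI : ∀ d, d < m → J0' d) :
    (2 : ℤ) ^ (m.primeFactors.card + 3) ∣
      ∑ d ∈ m.divisors.filter (fun d => d % 4 = 1), (cp0 (7 * d : ℕ) (7 * (m / d) : ℕ) : ℤ) := by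
  obtain ⟨hs, h4, h7, h3, h2, h31⟩ := cls7_facts hm
  rw [sumU hPC hm h1]
  have key : (2 : ℤ) ^ m.primeFactors.card ∣ ∑ c ∈ Ioo 0 ((m : ℤ) + 1), At m c := by
    by_cases h17 : m % 7 = 1 ∨ m % 7 = 2 ∨ m % 7 = 4
    · have g1 := H1 hPC hCP7 hR hm h1 h17 hI
      have g2 := H2 hPC hR hm h1 h17
      have k1 : (2 : ℤ) ^ m.primeFactors.card ∣ 2 * ∑ c ∈ Ioo 0 ((m : ℤ) + 1), Ct m c := by
        have e1 : (288 : ℤ) * ∑ c ∈ Ioo 0 ((m : ℤ) + 1), Ct m c =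
            16 * (9 * (2 * ∑ c ∈ Ioo 0 ((m : ℤ) + 1), Ct m c)) := by ring
        have e2 : (2 : ℤ) ^ (m.primeFactors.card + 4) = 16 * 2 ^ m.primeFactors.card := by ring
        rw [e1, e2] at g1
        exact odd_dvd 9 (by decide) (Int.dvd_of_mul_dvd_mul_left (by norm_num) g1)
      have k2 : (2 : ℤ) ^ m.primeFactors.card ∣
          2 * ∑ c ∈ Ioo 0 ((m : ℤ) + 1), (((dd m c).factorization 7 : ℤ) + 1) * Ct m c := by
        have e1 : (24 : ℤ) * ∑ c ∈ Ioo 0 ((m : ℤ) + 1),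
            (((dd m c).factorization 7 : ℤ) + 1) * Ct m c =
            8 * (3 * (∑ c ∈ Ioo 0 ((m : ℤ) + 1),
              (((dd m c).factorization 7 : ℤ) + 1) * Ct m c)) := by ring
        have e2 : (2 : ℤ) ^ (m.primeFactors.card + 3) = 8 * 2 ^ m.primeFactors.card := by ring
        rw [e1, e2] at g2
        exact Dvd.dvd.mul_left
          (odd_dvd 3 (by decide) (Int.dvd_of_mul_dvd_mul_left (by norm_num) g2)) 2
      -- the difference of the even terms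
      have k3 : (2 : ℤ) ^ m.primeFactors.card ∣ ∑ c ∈ Ioo 0 ((m : ℤ) + 1),
          (2 * ((((dd m c).factorization 7 : ℤ) + 1) * Ct m c) -
            if Even ((dd m c).factorization 7) then 2 * Ct m c else 0) := by
        refine dvd_sum fun c _ => ?_
        have h6 := Ct_div hs h2 h7 c
        by_cases hv : Even ((dd m c).factorization 7)
        · rw [if_pos hv]
          obtain ⟨j, hj⟩ := hv
          have e1 : 2 * ((((dd m c).factorization 7 : ℤ) + 1) * Ct m c) - 2 * Ct m c =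
              4 * Ct m c * j := by
            rw [hj]
            push_cast
            ring
          rw [e1]
          exact Dvd.dvd.mul_right h6 _
        · rw [if_neg hv]
          rw [Nat.not_even_iff_odd] at hv
          obtain ⟨j, hj⟩ := hv
          have e1 : 2 * ((((dd m c).factorization 7 : ℤ) + 1) * Ct m c) - 0 =
              4 * Ct m c * (j + 1) := by
            rw [hj]
            push_cast
            ring
          rw [e1]
          exact Dvd.dvd.mul_right h6 _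
      have k4 : (2 : ℤ) ^ m.primeFactors.card ∣ ∑ c ∈ Ioo 0 ((m : ℤ) + 1),
          (At m c + if Even ((dd m c).factorization 7) then 0 else 2 * Ct m c) := by
        refine dvd_sum fun c _ => ?_
        by_cases hv : Even ((dd m c).factorization 7)
        · rw [if_pos hv, add_zero]
          exact At_even hs h2 h7 c hv
        · rw [if_neg hv]
          exact At_odd hs h2 h7 c (Nat.not_even_iff_odd.1 hv)
      have e5 : ∑ c ∈ Ioo 0 ((m : ℤ) + 1), At m c = ∑ c ∈ Ioo 0 ((m : ℤ) + 1),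
          (At m c + if Even ((dd m c).factorization 7) then 0 else 2 * Ct m c) -
          2 * ∑ c ∈ Ioo 0 ((m : ℤ) + 1), Ct m c +
          2 * ∑ c ∈ Ioo 0 ((m : ℤ) + 1), (((dd m c).factorization 7 : ℤ) + 1) * Ct m c -
          ∑ c ∈ Ioo 0 ((m : ℤ) + 1), (2 * ((((dd m c).factorization 7 : ℤ) + 1) * Ct m c) -
            if Even ((dd m c).factorization 7) then 2 * Ct m c else 0) := by
        rw [mul_sum, mul_sum, ← sum_sub_distrib, ← sum_add_distrib, ← sum_sub_distrib]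
        refine sum_congr rfl fun c _ => ?_
        by_cases hv : Even ((dd m c).factorization 7)
        · rw [if_pos hv, if_pos hv]
          ring
        · rw [if_neg hv, if_neg hv]
          ring
      rw [e5]
      exact dvd_sub (dvd_add (dvd_sub k4 k1) k2) k3
    · refine dvd_sum fun c _ => At_even hs h2 h7 c ?_
      by_cases h0 : dd m c = 0
      · rw [h0]
        simp
      · have h6 : ¬ 7 ∣ dd m c := by
          intro h
          have h7' : (dd m c : ℤ) = m - c ^ 2 := by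
            unfold dd at h0 ⊢
            omega
          have h8 : (7 : ℤ) ∣ (dd m c : ℤ) := by exact_mod_cast h
          rw [h7'] at h8
          have h9 : c ^ 2 % 7 = 0 ∨ c ^ 2 % 7 = 1 ∨ c ^ 2 % 7 = 2 ∨ c ^ 2 % 7 = 4 := by
            have h3 : c % 7 = 0 ∨ c % 7 = 1 ∨ c % 7 = 2 ∨ c % 7 = 3 ∨ c % 7 = 4 ∨ c % 7 = 5 ∨
              c % 7 = 6 := by omega
            rcases h3 with h3 | h3 | h3 | h3 | h3 | h3 | h3 <;> simp [pow_two, Int.mul_emod, h3]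
          generalize c ^ 2 = u at h8 h9
          omega
        rw [Nat.factorization_eq_zero_of_not_dvd h6]
        exact Even.zero
  have e2 : (2 : ℤ) ^ (m.primeFactors.card + 3) = 8 * 2 ^ m.primeFactors.card := by ring
  have e1 : (24 : ℤ) * ∑ c ∈ Ioo 0 ((m : ℤ) + 1), At m c =
      8 * (3 * ∑ c ∈ Ioo 0 ((m : ℤ) + 1), At m c) := by ring
  rw [e1, e2]
  exact mul_dvd_mul_left 8 (Dvd.dvd.mul_left key 3)

end Pool.Agent.Run7.h483.P21
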