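import Mathlib

/-!
# P21 (helper483): the ternary form modulo `7`, finite checks
-/

set_option autoImplicit false

namespace Pool.Agent.Run7.h483.P21

/-! ### finite checks modulo `7` -/

/-- the inner product modulo `7` -/
def ipz (a b c a' b' c' : ZMod 7) : ZMod 7 :=
  4 * (a * a') + 3 * (b * b') + 4 * (c * c') + 2 * (a * c' + c * a')

def p0 (a b c : ZMod 7) : ZMod 7 := 2 * a + 3 * b + 4 * c
def p1 (a b c : ZMod 7) : ZMod 7 := 2 * a - 3 * b + 4 * c
def p2 (a _b c : ZMod 7) : ZMod 7 := a + 3 * c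
def p3 (a _b c : ZMod 7) : ZMod 7 := a + 5 * c
def p4 (a b c : ZMod 7) : ZMod 7 := 4 * a + 3 * b + 2 * c
def p5 (a b c : ZMod 7) : ZMod 7 := 2 * a + 3 * b - 2 * c
def p6 (a b c : ZMod 7) : ZMod 7 := 4 * a - 3 * b + 2 * c
def p7 (a b c : ZMod 7) : ZMod 7 := 2 * a - 3 * b - 2 * c

/-- an indicator -/
def dl (x : ZMod 7) : ℤ := if x = 0 then 1 else 0

/-- the number of common lines -/
def lin (a b c a' b' c' : ZMod 7) : ℤ :=
  dl (p0 a b c) * dl (p0 a' b' c') + dl (p1 a b c) * dl (p1 a' b' c') +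
    dl (p2 a b c) * dl (p2 a' b' c') + dl (p3 a b c) * dl (p3 a' b' c') +
    dl (p4 a b c) * dl (p4 a' b' c') + dl (p5 a b c) * dl (p5 a' b' c') +
    dl (p6 a b c) * dl (p6 a' b' c') + dl (p7 a b c) * dl (p7 a' b' c')

/-- the class of the norms -/
def isq (x : ZMod 7) : Prop := x = 3 ∨ x = 5 ∨ x = 6

instance (x : ZMod 7) : Decidable (isq x) := by unfold isq; infer_instance

theorem finA : ∀ a b c : ZMod 7, ipz a b c a b c = 0 → ¬ (a = 0 ∧ b = 0 ∧ c = 0) →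
    ∀ a' b' c' : ZMod 7, (ipz a' b' c' a' b' c' = 0 ∧ ¬ (a' = 0 ∧ b' = 0 ∧ c' = 0)) →
    dl (ipz a b c a' b' c') = lin a b c a' b' c' := by
  decide +kernel

theorem finC : ∀ a b c : ZMod 7, ipz a b c a b c = 0 → ¬ (a = 0 ∧ b = 0 ∧ c = 0) →
    ∀ a' b' c' : ZMod 7, isq (ipz a' b' c' a' b' c') →
    dl (ipz a b c a' b' c') = lin a b c a' b' c' := by
  decide +kernel

theorem finB : ∀ a b c : ZMod 7, ipz a b c a b c = 0 → ¬ (a = 0 ∧ b = 0 ∧ c = 0) →
    dl (p0 a b c) + dl (p1 a b c) + dl (p2 a b c) + dl (p3 a b c) + dl (p4 a b c) +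
      dl (p5 a b c) + dl (p6 a b c) + dl (p7 a b c) = 1 := by
  decide +kernel

theorem finD : ∀ a b c : ZMod 7, isq (ipz a b c a b c) →
    dl (p0 a b c) + dl (p1 a b c) + dl (p2 a b c) + dl (p3 a b c) + dl (p4 a b c) +
      dl (p5 a b c) + dl (p6 a b c) + dl (p7 a b c) = 2 := by
  decide +kernel

/-- the other class of the norms -/
def nsq (x : ZMod 7) : Prop := x = 1 ∨ x = 2 ∨ x = 4

instance (x : ZMod 7) : Decidable (nsq x) := by unfold nsq; infer_instance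

theorem finE : ∀ a b c : ZMod 7, ipz a b c a b c = 0 → ¬ (a = 0 ∧ b = 0 ∧ c = 0) →
    ∀ a' b' c' : ZMod 7, nsq (ipz a' b' c' a' b' c') → ¬ ipz a b c a' b' c' = 0 := by
  decide +kernel

theorem finF : ∀ a b c : ZMod 7, isq (ipz a b c a b c) → ∀ a' b' c' : ZMod 7,
    isq (ipz a' b' c' a' b' c') →
    lin a b c a' b' c' = if ipz a b c a b c * ipz a' b' c' a' b' c' =
        ipz a b c a' b' c' * ipz a b c a' b' c' then
      1 + (if ipz a' b' c' a' b' c' * a = ipz a b c a' b' c' * a' ∧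
        ipz a' b' c' a' b' c' * b = ipz a b c a' b' c' * b' ∧
        ipz a' b' c' a' b' c' * c = ipz a b c a' b' c' * c' then 1 else 0) else 0 := by
  decide +kernel

/-- the rotation of order six -/
theorem finR : ∀ a b c : ZMod 7, dl (p0 (a + c) b (-a)) = dl (p7 a b c) ∧
    dl (p4 (a + c) b (-a)) = dl (p0 a b c) ∧ dl (p5 (a + c) b (-a)) = dl (p4 a b c) ∧
    dl (p1 (a + c) b (-a)) = dl (p5 a b c) ∧ dl (p6 (a + c) b (-a)) = dl (p1 a b c) := by
  decide +kernel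

theorem finG0 : ∀ a b c : ZMod 7, p0 a b c = 0 → ∀ a' b' c' : ZMod 7, p0 a' b' c' = 0 →
    ipz a b c (-a') b' (a' + c') = - ipz a b c a' b' c' := by
  decide +kernel

theorem finG1 : ∀ a b c : ZMod 7, p1 a b c = 0 → ∀ a' b' c' : ZMod 7, p1 a' b' c' = 0 →
    ipz a b c (-a') b' (a' + c') = - ipz a b c a' b' c' := by
  decide +kernel

theorem finG2 : ∀ a b c : ZMod 7, p2 a b c = 0 → ∀ a' b' c' : ZMod 7, p2 a' b' c' = 0 →
    ipz a b c a' (-b') c' = - ipz a b c a' b' c' := by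
  decide +kernel

theorem finG3 : ∀ a b c : ZMod 7, p3 a b c = 0 → ∀ a' b' c' : ZMod 7, p3 a' b' c' = 0 →
    ipz a b c a' (-b') c' = - ipz a b c a' b' c' := by
  decide +kernel

theorem finG4 : ∀ a b c : ZMod 7, p4 a b c = 0 → ∀ a' b' c' : ZMod 7, p4 a' b' c' = 0 →
    ipz a b c (a' + c') b' (-c') = - ipz a b c a' b' c' := by
  decide +kernel

theorem finG5 : ∀ a b c : ZMod 7, p5 a b c = 0 → ∀ a' b' c' : ZMod 7, p5 a' b' c' = 0 →
    ipz a b c (-c') b' (-a') = - ipz a b c a' b' c' := by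
  decide +kernel

theorem finG6 : ∀ a b c : ZMod 7, p6 a b c = 0 → ∀ a' b' c' : ZMod 7, p6 a' b' c' = 0 →
    ipz a b c (a' + c') b' (-c') = - ipz a b c a' b' c' := by
  decide +kernel

theorem finG7 : ∀ a b c : ZMod 7, p7 a b c = 0 → ∀ a' b' c' : ZMod 7, p7 a' b' c' = 0 →
    ipz a b c (-c') b' (-a') = - ipz a b c a' b' c' := by
  decide +kernel


end Pool.Agent.Run7.h483.P21
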