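import Pool.Agent.Run7.h483.P21.HE
import Pool.Agent.Run7.h483.P21.RelF

/-!
# P21 (helper483): REL77, REL7s, REL7n, REL22, the relations with the Gross sums
-/

set_option autoImplicit false

namespace Pool.Agent.Run7.h483.P21

open Finset
open Pool.Agent.N969.P15 (V3)
open Pool.Agent.Run7.h843.P21 (ip vec rr rr0 cc cp cp0 cp7 I7 S_REL77 S_REL7s S_REL7n S_REL22)

/-! ### vectors modulo `7` -/

/-- the inner product modulo `7` -/
theorem ip_z (v w : V3) : ((ip v w : ℤ) : ZMod 7) =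
    ipz ((v 0 : ℤ) : ZMod 7) ((v 1 : ℤ) : ZMod 7) ((v 2 : ℤ) : ZMod 7)
      ((w 0 : ℤ) : ZMod 7) ((w 1 : ℤ) : ZMod 7) ((w 2 : ℤ) : ZMod 7) := by
  unfold ip ipz
  push_cast
  ring

/-- the indicators of the lines -/
def J0 (v : V3) : ℤ := dl (p0 (v 0 : ℤ) (v 1 : ℤ) (v 2 : ℤ))
def J1 (v : V3) : ℤ := dl (p1 (v 0 : ℤ) (v 1 : ℤ) (v 2 : ℤ))
def J2 (v : V3) : ℤ := dl (p2 (v 0 : ℤ) (v 1 : ℤ) (v 2 : ℤ))
def J3 (v : V3) : ℤ := dl (p3 (v 0 : ℤ) (v 1 : ℤ) (v 2 : ℤ))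
def J4 (v : V3) : ℤ := dl (p4 (v 0 : ℤ) (v 1 : ℤ) (v 2 : ℤ))
def J5 (v : V3) : ℤ := dl (p5 (v 0 : ℤ) (v 1 : ℤ) (v 2 : ℤ))
def J6 (v : V3) : ℤ := dl (p6 (v 0 : ℤ) (v 1 : ℤ) (v 2 : ℤ))
def J7 (v : V3) : ℤ := dl (p7 (v 0 : ℤ) (v 1 : ℤ) (v 2 : ℤ))

theorem dvd7 (x : ℤ) : (7 : ℤ) ∣ x ↔ ((x : ℤ) : ZMod 7) = 0 := by
  have := ZMod.intCast_zmod_eq_zero_iff_dvd x 7
  exact this.symm

theorem nz {n : ℤ} (hn : ¬ (49 : ℤ) ∣ n) {v : V3} (hv : ip v v = n) :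
    ¬ (((v 0 : ℤ) : ZMod 7) = 0 ∧ ((v 1 : ℤ) : ZMod 7) = 0 ∧ ((v 2 : ℤ) : ZMod 7) = 0) := by
  rintro ⟨h0, h1, h2⟩
  rw [← dvd7] at h0 h1 h2
  obtain ⟨a, ha⟩ := h0
  obtain ⟨b, hb⟩ := h1
  obtain ⟨c, hc⟩ := h2
  apply hn
  refine ⟨Q3 a b c, ?_⟩
  rw [← hv, ip_self, ha, hb, hc]
  unfold Q3
  ring

theorem castI {n : ℤ} (hn : n % 7 = 3 ∨ n % 7 = 5 ∨ n % 7 = 6) : isq ((n : ℤ) : ZMod 7) := by
  unfold isq
  rcases hn with hn | hn | hn
  · left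
    have h3 : (7 : ℤ) ∣ n - 3 := by omega
    rw [dvd7] at h3
    push_cast at h3
    exact sub_eq_zero.1 h3
  · right; left
    have h3 : (7 : ℤ) ∣ n - 5 := by omega
    rw [dvd7] at h3
    push_cast at h3
    exact sub_eq_zero.1 h3
  · right; right
    have h3 : (7 : ℤ) ∣ n - 6 := by omega
    rw [dvd7] at h3
    push_cast at h3
    exact sub_eq_zero.1 h3

/-! ### the automorphisms -/

def rho (w : V3) : V3 := ![w 0 + w 2, w 1, -w 0]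
def rho' (w : V3) : V3 := ![-w 2, w 1, w 0 + w 2]
def sa (w : V3) : V3 := ![-w 0, w 1, w 0 + w 2]
def sb (w : V3) : V3 := ![w 0, -w 1, w 2]
def sc (w : V3) : V3 := ![w 0 + w 2, w 1, -w 2]
def sd (w : V3) : V3 := ![-w 2, w 1, -w 0]

theorem sum_rho (n : ℤ) (g : V3 → ℤ) : ∑ w ∈ vec n, g (rho w) = ∑ w ∈ vec n, g w := by
  refine sum_nbij' rho rho' ?_ ?_ ?_ ?_ fun w _ => rfl
  · intro w hw
    rw [mem_vec, ip_self] at hw ⊢
    rw [← hw]
    simp only [rho, Matrix.cons_val_zero, Matrix.cons_val_one, Matrix.cons_val]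
    unfold Q3
    ring
  · intro w hw
    rw [mem_vec, ip_self] at hw ⊢
    rw [← hw]
    simp only [rho', Matrix.cons_val_zero, Matrix.cons_val_one, Matrix.cons_val]
    unfold Q3
    ring
  · intro w _
    apply v3_ext <;>
      simp only [rho, rho', Matrix.cons_val_zero, Matrix.cons_val_one, Matrix.cons_val] <;> ring
  · intro w _
    apply v3_ext <;>
      simp only [rho, rho', Matrix.cons_val_zero, Matrix.cons_val_one, Matrix.cons_val] <;> ring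

theorem sum_sa (n : ℤ) (g : V3 → ℤ) : ∑ w ∈ vec n, g (sa w) = ∑ w ∈ vec n, g w := by
  have hm : ∀ w ∈ vec n, sa w ∈ vec n := by
    intro w hw
    rw [mem_vec, ip_self] at hw ⊢
    rw [← hw]
    simp only [sa, Matrix.cons_val_zero, Matrix.cons_val_one, Matrix.cons_val]
    unfold Q3
    ring
  have hi : ∀ w : V3, sa (sa w) = w := by
    intro w
    apply v3_ext <;> simp only [sa, Matrix.cons_val_zero, Matrix.cons_val_one, Matrix.cons_val] <;>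
      ring
  exact sum_nbij' sa sa hm hm (fun w _ => hi w) (fun w _ => hi w) fun w _ => rfl

theorem sum_sb (n : ℤ) (g : V3 → ℤ) : ∑ w ∈ vec n, g (sb w) = ∑ w ∈ vec n, g w := by
  have hm : ∀ w ∈ vec n, sb w ∈ vec n := by
    intro w hw
    rw [mem_vec, ip_self] at hw ⊢
    rw [← hw]
    simp only [sb, Matrix.cons_val_zero, Matrix.cons_val_one, Matrix.cons_val]
    unfold Q3
    ring
  have hi : ∀ w : V3, sb (sb w) = w := by
    intro w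
    apply v3_ext <;> simp only [sb, Matrix.cons_val_zero, Matrix.cons_val_one, Matrix.cons_val] <;>
      ring
  exact sum_nbij' sb sb hm hm (fun w _ => hi w) (fun w _ => hi w) fun w _ => rfl

theorem sum_sc (n : ℤ) (g : V3 → ℤ) : ∑ w ∈ vec n, g (sc w) = ∑ w ∈ vec n, g w := by
  have hm : ∀ w ∈ vec n, sc w ∈ vec n := by
    intro w hw
    rw [mem_vec, ip_self] at hw ⊢
    rw [← hw]
    simp only [sc, Matrix.cons_val_zero, Matrix.cons_val_one, Matrix.cons_val]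
    unfold Q3
    ring
  have hi : ∀ w : V3, sc (sc w) = w := by
    intro w
    apply v3_ext <;> simp only [sc, Matrix.cons_val_zero, Matrix.cons_val_one, Matrix.cons_val] <;>
      ring
  exact sum_nbij' sc sc hm hm (fun w _ => hi w) (fun w _ => hi w) fun w _ => rfl

theorem sum_sd (n : ℤ) (g : V3 → ℤ) : ∑ w ∈ vec n, g (sd w) = ∑ w ∈ vec n, g w := by
  have hm : ∀ w ∈ vec n, sd w ∈ vec n := by
    intro w hw
    rw [mem_vec, ip_self] at hw ⊢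
    rw [← hw]
    simp only [sd, Matrix.cons_val_zero, Matrix.cons_val_one, Matrix.cons_val]
    unfold Q3
    ring
  have hi : ∀ w : V3, sd (sd w) = w := by
    intro w
    apply v3_ext <;> simp only [sd, Matrix.cons_val_zero, Matrix.cons_val_one, Matrix.cons_val] <;>
      ring
  exact sum_nbij' sd sd hm hm (fun w _ => hi w) (fun w _ => hi w) fun w _ => rfl

theorem sum_neg (n : ℤ) (g : V3 → ℤ) : ∑ w ∈ vec n, g (-w) = ∑ w ∈ vec n, g w := by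
  have hm : ∀ w ∈ vec n, -w ∈ vec n := by
    intro w hw
    rw [mem_vec, ip_self] at hw ⊢
    rw [← hw]
    simp only [Pi.neg_apply]
    unfold Q3
    ring
  exact sum_nbij' (fun w => -w) (fun w => -w) hm hm (fun w _ => neg_neg w) (fun w _ => neg_neg w)
    fun w _ => rfl

/-- the numbers of vectors for the lines -/
noncomputable def N0 (n : ℤ) : ℤ := ∑ v ∈ vec n, J0 v
noncomputable def N1 (n : ℤ) : ℤ := ∑ v ∈ vec n, J1 v
noncomputable def N2 (n : ℤ) : ℤ := ∑ v ∈ vec n, J2 v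
noncomputable def N3 (n : ℤ) : ℤ := ∑ v ∈ vec n, J3 v
noncomputable def N4 (n : ℤ) : ℤ := ∑ v ∈ vec n, J4 v
noncomputable def N5 (n : ℤ) : ℤ := ∑ v ∈ vec n, J5 v
noncomputable def N6 (n : ℤ) : ℤ := ∑ v ∈ vec n, J6 v
noncomputable def N7 (n : ℤ) : ℤ := ∑ v ∈ vec n, J7 v

theorem N2_eq (n : ℤ) : N2 n = rr0 n := by
  rw [← rr0_sum]
  unfold N2
  refine sum_congr rfl fun v _ => ?_
  unfold J2 dl p2
  have : (7 : ℤ) ∣ v 0 + 3 * v 2 ↔ ((v 0 : ℤ) : ZMod 7) + 3 * ((v 2 : ℤ) : ZMod 7) = 0 := by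
    rw [dvd7]
    push_cast
    rfl
  simp only [this]

theorem N3_eq (n : ℤ) : N3 n = rr0 n := by
  rw [← rr0_sum']
  unfold N3
  refine sum_congr rfl fun v _ => ?_
  unfold J3 dl p3
  have : (7 : ℤ) ∣ v 0 + 5 * v 2 ↔ ((v 0 : ℤ) : ZMod 7) + 5 * ((v 2 : ℤ) : ZMod 7) = 0 := by
    rw [dvd7]
    push_cast
    rfl
  simp only [this]

theorem rho_cast (v : V3) : (((rho v) 0 : ℤ) : ZMod 7) = ((v 0 : ℤ) : ZMod 7) + ((v 2 : ℤ) : ZMod 7) ∧
    (((rho v) 1 : ℤ) : ZMod 7) = ((v 1 : ℤ) : ZMod 7) ∧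
    (((rho v) 2 : ℤ) : ZMod 7) = -((v 0 : ℤ) : ZMod 7) := by
  refine ⟨?_, ?_, ?_⟩
  · show ((v 0 + v 2 : ℤ) : ZMod 7) = _
    push_cast
    rfl
  · rfl
  · show ((-v 0 : ℤ) : ZMod 7) = _
    push_cast
    rfl

theorem N7_eq (n : ℤ) : N7 n = N0 n := by
  unfold N7 N0
  rw [← sum_rho n J0]
  refine sum_congr rfl fun v _ => ?_
  obtain ⟨h0, h1, h2⟩ := rho_cast v
  unfold J0 J7
  rw [h0, h1, h2]
  exact (finR _ _ _).1.symm

theorem N4_eq (n : ℤ) : N4 n = N0 n := by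
  unfold N4 N0
  rw [← sum_rho n J4]
  refine sum_congr rfl fun v _ => ?_
  obtain ⟨h0, h1, h2⟩ := rho_cast v
  unfold J0 J4
  rw [h0, h1, h2]
  exact (finR _ _ _).2.1

theorem N5_eq (n : ℤ) : N5 n = N0 n := by
  rw [← N4_eq]
  unfold N5 N4
  rw [← sum_rho n J5]
  refine sum_congr rfl fun v _ => ?_
  obtain ⟨h0, h1, h2⟩ := rho_cast v
  unfold J5 J4
  rw [h0, h1, h2]
  exact (finR _ _ _).2.2.1

theorem N1_eq (n : ℤ) : N1 n = N0 n := by
  rw [← N5_eq]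
  unfold N1 N5
  rw [← sum_rho n J1]
  refine sum_congr rfl fun v _ => ?_
  obtain ⟨h0, h1, h2⟩ := rho_cast v
  unfold J1 J5
  rw [h0, h1, h2]
  exact (finR _ _ _).2.2.2.1

theorem N6_eq (n : ℤ) : N6 n = N0 n := by
  rw [← N1_eq]
  unfold N6 N1
  rw [← sum_rho n J6]
  refine sum_congr rfl fun v _ => ?_
  obtain ⟨h0, h1, h2⟩ := rho_cast v
  unfold J6 J1
  rw [h0, h1, h2]
  exact (finR _ _ _).2.2.2.2

/-- the number of common lines -/
def LL (v w : V3) : ℤ := J0 v * J0 w + J1 v * J1 w + J2 v * J2 w + J3 v * J3 w + J4 v * J4 w +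
  J5 v * J5 w + J6 v * J6 w + J7 v * J7 w

theorem sum_LL (n1 n2 : ℤ) : ∑ v ∈ vec n1, ∑ w ∈ vec n2, LL v w =
    2 * (rr0 n1 * rr0 n2) + 6 * (N0 n1 * N0 n2) := by
  have h : ∑ v ∈ vec n1, ∑ w ∈ vec n2, LL v w =
      N0 n1 * N0 n2 + N1 n1 * N1 n2 + N2 n1 * N2 n2 + N3 n1 * N3 n2 + N4 n1 * N4 n2 +
      N5 n1 * N5 n2 + N6 n1 * N6 n2 + N7 n1 * N7 n2 := by
    unfold LL N0 N1 N2 N3 N4 N5 N6 N7
    simp only [sum_add_distrib, sum_mul_sum]
  rw [h, N1_eq, N1_eq, N2_eq, N2_eq, N3_eq, N3_eq, N4_eq, N4_eq, N5_eq, N5_eq, N6_eq, N6_eq,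
    N7_eq, N7_eq]
  ring

theorem seven_div {n : ℤ} (hn : (7 : ℤ) ∣ n) (hn9 : ¬ (49 : ℤ) ∣ n) :
    2 * rr0 n + 6 * N0 n = rr n := by
  have h : N0 n + N1 n + N2 n + N3 n + N4 n + N5 n + N6 n + N7 n = rr n := by
    unfold N0 N1 N2 N3 N4 N5 N6 N7 rr
    simp only [← sum_add_distrib]
    rw [card_eq_sum_ones]
    push_cast
    refine sum_congr rfl fun v hv => ?_
    rw [mem_vec] at hv
    refine finB _ _ _ ?_ (nz hn9 hv)
    rw [← ip_z, hv]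
    exact (dvd7 n).1 hn
  rw [N1_eq, N2_eq, N3_eq, N4_eq, N5_eq, N6_eq, N7_eq] at h
  linarith

theorem seven_two {n : ℤ} (hn : n % 7 = 3 ∨ n % 7 = 5 ∨ n % 7 = 6) :
    2 * rr0 n + 6 * N0 n = 2 * rr n := by
  have h : N0 n + N1 n + N2 n + N3 n + N4 n + N5 n + N6 n + N7 n = 2 * rr n := by
    unfold N0 N1 N2 N3 N4 N5 N6 N7 rr
    simp only [← sum_add_distrib]
    rw [card_eq_sum_ones]
    push_cast
    rw [mul_sum]
    refine sum_congr rfl fun v hv => ?_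
    rw [mem_vec] at hv
    rw [mul_one]
    refine finD _ _ _ ?_
    rw [← ip_z, hv]
    exact castI hn
  rw [N1_eq, N2_eq, N3_eq, N4_eq, N5_eq, N6_eq, N7_eq] at h
  linarith

theorem cp0_eq (n1 n2 : ℤ) : (cp0 n1 n2 : ℤ) =
    ∑ v ∈ vec n1, ∑ w ∈ vec n2, dl ((ip v w : ℤ) : ZMod 7) := by
  unfold cp0
  rw [card_filter, sum_product]
  push_cast
  refine sum_congr rfl fun v _ => sum_congr rfl fun w _ => ?_
  unfold dl
  simp only [dvd7]

theorem t_REL77 : S_REL77 := by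
  intro n1 n2 h1 h1' h2 h2'
  have a1 : (7 : ℤ) ∣ (n1 : ℤ) := by exact_mod_cast h1
  have a2 : (7 : ℤ) ∣ (n2 : ℤ) := by exact_mod_cast h2
  have b1 : ¬ (49 : ℤ) ∣ (n1 : ℤ) := by exact_mod_cast h1'
  have b2 : ¬ (49 : ℤ) ∣ (n2 : ℤ) := by exact_mod_cast h2'
  have key : (cp0 n1 n2 : ℤ) = 2 * (rr0 n1 * rr0 n2) + 6 * (N0 n1 * N0 n2) := by
    rw [cp0_eq, ← sum_LL]
    refine sum_congr rfl fun v hv => sum_congr rfl fun w hw => ?_
    rw [mem_vec] at hv hw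
    rw [ip_z]
    refine finA _ _ _ ?_ (nz b1 hv) _ _ _ ⟨?_, nz b2 hw⟩
    · rw [← ip_z, hv]
      exact (dvd7 _).1 a1
    · rw [← ip_z, hw]
      exact (dvd7 _).1 a2
  have c1 : cc (n1 : ℤ) = rr n1 - 8 * rr0 n1 := by
    unfold cc
    rw [if_pos (by omega)]
  have c2 : cc (n2 : ℤ) = rr n2 - 8 * rr0 n2 := by
    unfold cc
    rw [if_pos (by omega)]
  have d1 := seven_div a1 b1
  have d2 := seven_div a2 b2
  rw [key, c1, c2, ← d1, ← d2]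
  ring

theorem t_REL7s : S_REL7s := by
  intro n1 n2 h1 h1' h2
  have a1 : (7 : ℤ) ∣ (n1 : ℤ) := by exact_mod_cast h1
  have b1 : ¬ (49 : ℤ) ∣ (n1 : ℤ) := by exact_mod_cast h1'
  have a2 : (n2 : ℤ) % 7 = 3 ∨ (n2 : ℤ) % 7 = 5 ∨ (n2 : ℤ) % 7 = 6 := by
    unfold I7 at h2
    omega
  have key : (cp0 n1 n2 : ℤ) = 2 * (rr0 n1 * rr0 n2) + 6 * (N0 n1 * N0 n2) := by
    rw [cp0_eq, ← sum_LL]
    refine sum_congr rfl fun v hv => sum_congr rfl fun w hw => ?_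
    rw [mem_vec] at hv hw
    rw [ip_z]
    refine finC _ _ _ ?_ (nz b1 hv) _ _ _ ?_
    · rw [← ip_z, hv]
      exact (dvd7 _).1 a1
    · rw [← ip_z, hw]
      exact castI a2
  have c1 : cc (n1 : ℤ) = rr n1 - 8 * rr0 n1 := by
    unfold cc
    rw [if_pos (by omega)]
  have c2 : cc (n2 : ℤ) = rr n2 - 4 * rr0 n2 := by
    unfold cc
    rw [if_neg (by omega)]
  have d1 := seven_div a1 b1
  have d2 := seven_two a2
  rw [key, c1, c2, ← d1]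
  have e : rr n2 = rr0 n2 + 3 * N0 n2 := by linarith
  rw [e]
  ring

theorem t_REL7n : S_REL7n := by
  intro n1 n2 h1 h1' h2
  have a1 : (7 : ℤ) ∣ (n1 : ℤ) := by exact_mod_cast h1
  have b1 : ¬ (49 : ℤ) ∣ (n1 : ℤ) := by exact_mod_cast h1'
  have hk : ∀ k : ℤ, (7 : ℤ) ∣ (n2 : ℤ) - k → (((n2 : ℕ) : ℤ) : ZMod 7) = ((k : ℤ) : ZMod 7) := by
    intro k h3
    rw [dvd7] at h3
    push_cast at h3
    push_cast
    exact sub_eq_zero.1 h3
  have a2 : nsq (((n2 : ℕ) : ℤ) : ZMod 7) := by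
    unfold nsq
    rcases h2 with h2 | h2 | h2
    · left
      have := hk 1 (by omega)
      exact_mod_cast this
    · right; left
      have := hk 2 (by omega)
      exact_mod_cast this
    · right; right
      have := hk 4 (by omega)
      exact_mod_cast this
  unfold cp0
  rw [card_eq_zero, filter_eq_empty_iff]
  rintro ⟨v, w⟩ hvw h3
  rw [mem_product, mem_vec, mem_vec] at hvw
  obtain ⟨hv, hw⟩ := hvw
  simp only at hv hw h3
  rw [dvd7, ip_z] at h3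
  refine finE _ _ _ ?_ (nz b1 hv) _ _ _ ?_ h3
  · rw [← ip_z, hv]
    exact (dvd7 _).1 a1
  · rw [← ip_z, hw]
    exact a2

end Pool.Agent.Run7.h483.P21
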